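import Mathlib

namespace Pool.Agent.H156.Schur

open Polynomial MeasureTheory

noncomputable section

/-- Taylor coefficient sequences of nonconstant real rational functions `P/Q` without poles in the
closed unit disc and bounded by one on the unit circle. -/
def HR : Set (ℕ → ℝ) := {c | (∃ n, 0 < n ∧ c n ≠ 0) ∧
  ∃ P Q : ℝ[X], (∀ z : ℂ, ‖z‖ ≤ 1 → aeval z Q ≠ 0) ∧
    (∀ z : ℂ, ‖z‖ = 1 → ‖aeval z P / aeval z Q‖ ≤ 1) ∧
    (Q : PowerSeries ℝ) * PowerSeries.mk c = (P : PowerSeries ℝ)}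

theorem coeff_bound {c : ℕ → ℝ} {P Q : ℝ[X]} (hQ : ∀ z : ℂ, ‖z‖ ≤ 1 → aeval z Q ≠ 0)
    (hP : ∀ z : ℂ, ‖z‖ = 1 → ‖aeval z P / aeval z Q‖ ≤ 1)
    (hc : (Q : PowerSeries ℝ) * PowerSeries.mk c = (P : PowerSeries ℝ)) (G : ℝ[X]) (L : ℕ) :
    2 * Real.pi * |PowerSeries.coeff L (PowerSeries.mk c * (G : PowerSeries ℝ))| ≤
      ∫ θ in (0:ℝ)..2 * Real.pi, ‖aeval (circleMap 0 1 θ) G‖ := by
  set D : PowerSeries ℝ := PowerSeries.mk c * (G : PowerSeries ℝ) with hD
  set T : ℝ[X] := ∑ n ∈ Finset.range L, C (PowerSeries.coeff n D) * X ^ n with hT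
  have hQD : (Q : PowerSeries ℝ) * D = ((P * G : ℝ[X]) : PowerSeries ℝ) := by
    rw [hD, ← mul_assoc, hc, Polynomial.coe_mul]
  have hTcoeff : ∀ n, T.coeff n = if n < L then PowerSeries.coeff n D else 0 := by
    intro n
    rw [hT, Polynomial.finsetSum_coeff]
    simp only [Polynomial.coeff_C_mul, Polynomial.coeff_X_pow]
    by_cases hn : n < L
    · rw [if_pos hn, Finset.sum_eq_single n]
      · simp
      · intro b _ hb; rw [if_neg (Ne.symm hb), mul_zero]
      · intro h; exact absurd (Finset.mem_range.mpr hn) h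
    · rw [if_neg hn]
      apply Finset.sum_eq_zero
      intro b hb
      have := Finset.mem_range.mp hb
      rw [if_neg (by omega), mul_zero]
  have hdvd : (PowerSeries.X : PowerSeries ℝ) ^ L ∣ D - (T : PowerSeries ℝ) := by
    rw [PowerSeries.X_pow_dvd_iff]
    intro m hm
    rw [map_sub, Polynomial.coeff_coe, hTcoeff, if_pos hm, sub_self]
  obtain ⟨E, hE⟩ := hdvd
  have hE0 : PowerSeries.coeff 0 E = PowerSeries.coeff L D := by
    have h1 : PowerSeries.coeff L (D - (T : PowerSeries ℝ)) = PowerSeries.coeff L D := by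
      rw [map_sub, Polynomial.coeff_coe, hTcoeff, if_neg (lt_irrefl L), sub_zero]
    rw [← h1, hE, PowerSeries.coeff_X_pow_mul', if_pos le_rfl, Nat.sub_self]
  have hR : (((P * G - Q * T : ℝ[X])) : PowerSeries ℝ)
      = PowerSeries.X ^ L * ((Q : PowerSeries ℝ) * E) := by
    rw [Polynomial.coe_sub, ← hQD, Polynomial.coe_mul, ← mul_sub, hE]; ring
  have hdvd2 : (X : ℝ[X]) ^ L ∣ P * G - Q * T := by
    rw [Polynomial.X_pow_dvd_iff]
    intro d hd
    rw [← Polynomial.coeff_coe, hR, PowerSeries.coeff_X_pow_mul', if_neg (not_le.mpr hd)]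
  obtain ⟨P1, hP1⟩ := hdvd2
  have hP1' : P1.coeff 0 = Q.coeff 0 * PowerSeries.coeff L D := by
    have h1 : (P * G - Q * T).coeff L = Q.coeff 0 * PowerSeries.coeff L D := by
      rw [← Polynomial.coeff_coe, hR, PowerSeries.coeff_X_pow_mul', if_pos le_rfl, Nat.sub_self,
        PowerSeries.coeff_zero_eq_constantCoeff_apply, map_mul,
        ← PowerSeries.coeff_zero_eq_constantCoeff_apply,
        ← PowerSeries.coeff_zero_eq_constantCoeff_apply, hE0, Polynomial.coeff_coe]
    rw [← h1, hP1, Polynomial.coeff_X_pow_mul', if_pos le_rfl, Nat.sub_self]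
  have hQ0 : (Q.coeff 0 : ℂ) ≠ 0 := by
    have := hQ 0 (by simp)
    rwa [← Polynomial.coeff_zero_eq_aeval_zero'] at this
  set h : ℂ → ℂ := fun z => aeval z P1 / aeval z Q with hh
  have hdiff : DiffContOnCl ℂ h (Metric.ball 0 1) := by
    have h1 : DifferentiableOn ℂ h (Metric.closedBall 0 1) := by
      intro z hz
      have hz' : ‖z‖ ≤ 1 := by simpa using hz
      exact ((P1.differentiable_aeval z).div (Q.differentiable_aeval z)
        (hQ z hz')).differentiableWithinAt
    exact h1.diffContOnCl_ball (le_refl _)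
  have hcauchy := hdiff.circleIntegral_sub_inv_smul (w := 0) (Metric.mem_ball_self one_pos)
  have hh0 : h 0 = ((PowerSeries.coeff L D : ℝ) : ℂ) := by
    simp only [hh]
    rw [← Polynomial.coeff_zero_eq_aeval_zero', ← Polynomial.coeff_zero_eq_aeval_zero', hP1']
    simp only [Complex.coe_algebraMap, Complex.ofReal_mul]
    rw [mul_comm, mul_div_assoc, div_self hQ0, mul_one]
  set F : ℂ → ℂ := fun z => (z ^ (L + 1))⁻¹ * (aeval z P / aeval z Q * aeval z G) with hF
  set S : ℂ → ℂ := fun z => ∑ n ∈ Finset.range L,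
    ((PowerSeries.coeff n D : ℝ) : ℂ) * (z - 0) ^ ((n : ℤ) - L - 1) with hS
  have hTaeval : ∀ z : ℂ, aeval z T = ∑ n ∈ Finset.range L,
      ((PowerSeries.coeff n D : ℝ) : ℂ) * z ^ n := by
    intro z
    rw [hT, map_sum]
    apply Finset.sum_congr rfl
    intro n _
    simp
  have hcongr : Set.EqOn (fun z => (z - 0)⁻¹ • h z) (fun z => F z - S z) (Metric.sphere 0 1) := by
    intro z hz
    have hz1 : ‖z‖ = 1 := by simpa using hz
    have hz0 : z ≠ 0 := by intro h0; rw [h0] at hz1; simp at hz1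
    have hQz := hQ z hz1.le
    have hS' : S z = (z ^ (L + 1))⁻¹ * aeval z T := by
      rw [hTaeval, Finset.mul_sum]
      apply Finset.sum_congr rfl
      intro n _
      rw [sub_zero, sub_sub, zpow_sub₀ hz0, zpow_natCast]
      have : z ^ ((L : ℤ) + 1) = z ^ (L + 1) := by
        rw [← zpow_natCast]; push_cast; rfl
      rw [this]
      field_simp
    have hpoly : aeval z P * aeval z G - aeval z Q * aeval z T = z ^ L * aeval z P1 := by
      have := congrArg (aeval z) hP1
      simpa using this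
    show (z - 0)⁻¹ • h z = F z - S z
    rw [hS', hF, hh]
    simp only [sub_zero, smul_eq_mul]
    rw [← mul_sub]
    have h2 : aeval z P / aeval z Q * aeval z G - aeval z T
        = (z ^ L * aeval z P1) / aeval z Q := by
      rw [← hpoly]; field_simp
    rw [h2]
    field_simp
    ring
  rw [circleIntegral.integral_congr zero_le_one hcongr] at hcauchy
  have hcircle_ne : ∀ z ∈ Metric.sphere (0:ℂ) 1, z ≠ 0 := by
    intro z hz h0
    rw [h0] at hz; simp at hz
  have hFint : CircleIntegrable F 0 1 := by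
    apply ContinuousOn.circleIntegrable zero_le_one
    intro z hz
    have hz1 : ‖z‖ = 1 := by simpa using hz
    have hz0 : z ≠ 0 := hcircle_ne z hz
    have hQz := hQ z hz1.le
    apply ContinuousAt.continuousWithinAt
    apply ContinuousAt.mul
    · exact ((continuous_pow (L + 1)).continuousAt).inv₀ (pow_ne_zero _ hz0)
    · apply ContinuousAt.mul
      · exact (P.continuous_aeval.continuousAt).div (Q.continuous_aeval.continuousAt) hQz
      · exact G.continuous_aeval.continuousAt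
  have hSnint : ∀ n ∈ Finset.range L, CircleIntegrable
      (fun z : ℂ => ((PowerSeries.coeff n D : ℝ) : ℂ) * (z - 0) ^ ((n : ℤ) - L - 1)) 0 1 := by
    intro n _
    apply ContinuousOn.circleIntegrable zero_le_one
    intro z hz
    have hz0 : z ≠ 0 := hcircle_ne z hz
    apply ContinuousAt.continuousWithinAt
    apply ContinuousAt.mul continuousAt_const
    exact (continuousAt_id.sub continuousAt_const).zpow₀ _ (Or.inl (by simpa using hz0))
  have hSint : CircleIntegrable S 0 1 := by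
    have := CircleIntegrable.fun_sum (Finset.range L) hSnint
    exact this
  have hS0 : (∮ z in C(0, 1), S z) = 0 := by
    rw [hS, circleIntegral.integral_fun_sum hSnint]
    apply Finset.sum_eq_zero
    intro n hn
    have hn' := Finset.mem_range.mp hn
    rw [circleIntegral.integral_const_mul, circleIntegral.integral_sub_zpow_of_ne (by omega),
      mul_zero]
  rw [circleIntegral.integral_sub hFint hSint, hS0, sub_zero, hh0] at hcauchy
  have hnorm : ‖(∮ z in C(0, 1), F z)‖ ≤
      ∫ θ in (0:ℝ)..2 * Real.pi, ‖aeval (circleMap 0 1 θ) G‖ := by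
    unfold circleIntegral
    refine (intervalIntegral.norm_integral_le_integral_norm Real.two_pi_pos.le).trans ?_
    apply intervalIntegral.integral_mono_on Real.two_pi_pos.le
    · have := hFint.out
      exact this.norm
    · apply Continuous.intervalIntegrable
      exact (G.continuous_aeval.comp (continuous_circleMap 0 1)).norm
    · intro θ _
      have hz1 : ‖circleMap 0 1 θ‖ = 1 := by simp
      rw [norm_smul, deriv_circleMap]
      simp only [hF, norm_mul, norm_inv, norm_pow, hz1, one_pow, inv_one, one_mul, Complex.norm_I,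
        mul_one]
      calc ‖aeval (circleMap 0 1 θ) P / aeval (circleMap 0 1 θ) Q‖ * ‖aeval (circleMap 0 1 θ) G‖
          ≤ 1 * ‖aeval (circleMap 0 1 θ) G‖ :=
            mul_le_mul_of_nonneg_right (hP _ hz1) (norm_nonneg _)
        _ = _ := one_mul _
  rw [hcauchy] at hnorm
  refine le_trans (le_of_eq ?_) hnorm
  rw [norm_smul]
  simp [abs_of_pos Real.pi_pos]

theorem coeff_term (c : ℕ → ℝ) (r : ℝ) (m L : ℕ) :
    PowerSeries.coeff L (PowerSeries.mk c * ((C r * X ^ m : ℝ[X]) : PowerSeries ℝ))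
      = if m ≤ L then r * c (L - m) else 0 := by
  rw [Polynomial.coe_mul, Polynomial.coe_C, Polynomial.coe_pow, Polynomial.coe_X, ← mul_assoc,
    PowerSeries.coeff_mul_X_pow']
  split_ifs
  · rw [mul_comm, PowerSeries.coeff_C_mul, PowerSeries.coeff_mk]
  · rfl

theorem integral_cos_nat (m : ℕ) (hm : 0 < m) :
    ∫ θ in (0:ℝ)..2 * Real.pi, Real.cos (m * θ) = 0 := by
  have hm' : (m : ℝ) ≠ 0 := by positivity
  rw [intervalIntegral.integral_comp_mul_left (fun x => Real.cos x) hm', integral_cos]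
  have : Real.sin (m * (2 * Real.pi)) = 0 := by
    have := Real.sin_nat_mul_pi (2 * m)
    rw [← this]; congr 1; push_cast; ring
  simp [this]

theorem circle_pow (θ : ℝ) (m : ℕ) :
    (circleMap 0 1 θ) ^ m = ⟨Real.cos (m * θ), Real.sin (m * θ)⟩ := by
  have h1 : circleMap 0 1 θ = Complex.exp (θ * Complex.I) := by simp [circleMap]
  rw [h1, ← Complex.exp_nat_mul]
  have h2 : (m : ℂ) * (θ * Complex.I) = ((m * θ : ℝ) : ℂ) * Complex.I := by push_cast; ring
  rw [h2]
  apply Complex.ext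
  · rw [Complex.exp_ofReal_mul_I_re]
  · rw [Complex.exp_ofReal_mul_I_im]

theorem exists_seq (N D : ℝ[X]) (h : D.coeff 0 = 1) :
    ∃ c : ℕ → ℝ, (D : PowerSeries ℝ) * PowerSeries.mk c = (N : PowerSeries ℝ) := by
  refine ⟨fun n => PowerSeries.coeff n ((N : PowerSeries ℝ) * (D : PowerSeries ℝ)⁻¹), ?_⟩
  have h1 : PowerSeries.mk (fun n => PowerSeries.coeff n
      ((N : PowerSeries ℝ) * (D : PowerSeries ℝ)⁻¹)) = (N : PowerSeries ℝ) * (D : PowerSeries ℝ)⁻¹ := by
    ext n; simp
  rw [h1]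
  have h2 : PowerSeries.constantCoeff (D : PowerSeries ℝ) ≠ 0 := by
    rw [← PowerSeries.coeff_zero_eq_constantCoeff_apply, Polynomial.coeff_coe, h]; exact one_ne_zero
  rw [mul_comm, mul_assoc, PowerSeries.inv_mul_cancel _ h2, mul_one]

theorem HR_neg {c : ℕ → ℝ} (hc : c ∈ HR) : (fun n => - c n) ∈ HR := by
  obtain ⟨⟨n, hn, hcn⟩, P, Q, hQ, hP, he⟩ := hc
  refine ⟨⟨n, hn, neg_ne_zero.mpr hcn⟩, -P, Q, hQ, ?_, ?_⟩
  · intro z hz
    rw [map_neg, neg_div, norm_neg]
    exact hP z hz
  · have h1 : PowerSeries.mk (fun n => - c n) = - PowerSeries.mk c := by ext n; simp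
    rw [h1, mul_neg, he, Polynomial.coe_neg]

/-- trinomial kernel -/
theorem kernel_one {c : ℕ → ℝ} (hc : c ∈ HR) (k l : ℕ) (hk : 0 < k) (hkl : 2 * k < l) (s t : ℝ) :
    |c l + 2 * s * c k + 2 * t * c 0| ≤ 1 + s ^ 2 + t ^ 2 := by
  obtain ⟨-, P, Q, hQ, hP, he⟩ := hc
  set p : ℝ[X] := 1 + C s * X ^ (l - k) + C t * X ^ l with hp
  have hb := coeff_bound hQ hP he (p ^ 2) l
  have hexp : (p ^ 2 : ℝ[X]) = C 1 * X ^ 0 + C (2 * s) * X ^ (l - k) + C (2 * t) * X ^ l
      + C (s ^ 2) * X ^ (2 * (l - k)) + C (2 * s * t) * X ^ (l - k + l)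
      + C (t ^ 2) * X ^ (2 * l) := by
    rw [hp]
    simp only [map_mul, map_pow, map_one, pow_add, pow_mul', map_ofNat]
    ring
  have hco : PowerSeries.coeff l (PowerSeries.mk c * ((p ^ 2 : ℝ[X]) : PowerSeries ℝ))
      = c l + 2 * s * c k + 2 * t * c 0 := by
    rw [hexp]
    simp only [Polynomial.coe_add, mul_add, map_add, coeff_term]
    rw [if_pos (Nat.zero_le _), if_pos (Nat.sub_le _ _), if_pos le_rfl, if_neg (by omega),
      if_neg (by omega), if_neg (by omega)]
    have h1 : l - (l - k) = k := by omega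
    rw [h1, Nat.sub_self, Nat.sub_zero]
    ring
  rw [hco] at hb
  have hint : ∫ θ in (0:ℝ)..2 * Real.pi, ‖aeval (circleMap 0 1 θ) (p ^ 2)‖
      = 2 * Real.pi * (1 + s ^ 2 + t ^ 2) := by
    have hpt : ∀ θ : ℝ, ‖aeval (circleMap 0 1 θ) (p ^ 2)‖
        = (1 + s ^ 2 + t ^ 2) + 2 * s * Real.cos ((l - k : ℕ) * θ) + 2 * t * Real.cos (l * θ)
          + 2 * s * t * Real.cos (k * θ) := by
      intro θ
      rw [map_pow, norm_pow, ← Complex.normSq_eq_norm_sq]
      have h1 : aeval (circleMap 0 1 θ) p = 1 + s * (circleMap 0 1 θ) ^ (l - k)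
          + t * (circleMap 0 1 θ) ^ l := by
        rw [hp]; simp
      rw [h1, circle_pow, circle_pow, Complex.normSq_apply]
      simp only [Complex.add_re, Complex.add_im, Complex.one_re, Complex.one_im, Complex.mul_re,
        Complex.mul_im, Complex.ofReal_re, Complex.ofReal_im, zero_mul, sub_zero, add_zero, zero_add]
      have h2 : Real.cos (k * θ) = Real.cos (l * θ) * Real.cos ((l - k : ℕ) * θ)
          + Real.sin (l * θ) * Real.sin ((l - k : ℕ) * θ) := by
        rw [← Real.cos_sub]; congr 1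
        rw [Nat.cast_sub (by omega)]; ring
      rw [h2]
      have e1 := Real.sin_sq_add_cos_sq (l * θ)
      have e2 := Real.sin_sq_add_cos_sq ((l - k : ℕ) * θ)
      linear_combination (t ^ 2) * e1 + (s ^ 2) * e2
    rw [intervalIntegral.integral_congr (g := fun θ => (1 + s ^ 2 + t ^ 2)
      + 2 * s * Real.cos ((l - k : ℕ) * θ) + 2 * t * Real.cos (l * θ)
          + 2 * s * t * Real.cos (k * θ)) (fun θ _ => hpt θ)]
    rw [intervalIntegral.integral_add, intervalIntegral.integral_add, intervalIntegral.integral_add,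
      intervalIntegral.integral_const_mul, intervalIntegral.integral_const_mul,
      intervalIntegral.integral_const_mul, integral_cos_nat _ (by omega),
      integral_cos_nat _ (by omega), integral_cos_nat _ hk]
    · simp; ring
    all_goals
      apply Continuous.intervalIntegrable
      fun_prop
  rw [hint] at hb
  exact le_of_mul_le_mul_left hb Real.two_pi_pos

theorem universal_bound {c : ℕ → ℝ} (hc : c ∈ HR) (k l : ℕ) (hk : 0 < k) (hkl : 2 * k < l) :
    |c l| ≤ 1 - c 0 ^ 2 - c k ^ 2 := by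
  have h1 := kernel_one hc k l hk hkl (c k) (c 0)
  have h2 := kernel_one hc k l hk hkl (-c k) (-c 0)
  rw [abs_le] at h1 h2 ⊢
  constructor
  · nlinarith [h2.1]
  · nlinarith [h1.2]

theorem domain_bound {c : ℕ → ℝ} (hc : c ∈ HR) (k : ℕ) (hk : 0 < k) :
    |c k| ≤ 1 - c 0 ^ 2 := by
  have key : ∀ t : ℝ, |c k + 2 * t * c 0| ≤ 1 + t ^ 2 := by
    intro t
    obtain ⟨-, P, Q, hQ, hP, he⟩ := hc
    set p : ℝ[X] := 1 + C t * X ^ k with hp
    have hb := coeff_bound hQ hP he (p ^ 2) k
    have hexp : (p ^ 2 : ℝ[X]) = C 1 * X ^ 0 + C (2 * t) * X ^ k + C (t ^ 2) * X ^ (2 * k) := by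
      rw [hp]
      simp only [map_mul, map_pow, map_one, pow_mul', map_ofNat]
      ring
    have hco : PowerSeries.coeff k (PowerSeries.mk c * ((p ^ 2 : ℝ[X]) : PowerSeries ℝ))
        = c k + 2 * t * c 0 := by
      rw [hexp]
      simp only [Polynomial.coe_add, mul_add, map_add, coeff_term]
      rw [if_pos (Nat.zero_le _), if_pos le_rfl, if_neg (by omega)]
      rw [Nat.sub_self, Nat.sub_zero]
      ring
    rw [hco] at hb
    have hint : ∫ θ in (0:ℝ)..2 * Real.pi, ‖aeval (circleMap 0 1 θ) (p ^ 2)‖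
        = 2 * Real.pi * (1 + t ^ 2) := by
      have hpt : ∀ θ : ℝ, ‖aeval (circleMap 0 1 θ) (p ^ 2)‖
          = (1 + t ^ 2) + 2 * t * Real.cos (k * θ) := by
        intro θ
        rw [map_pow, norm_pow, ← Complex.normSq_eq_norm_sq]
        have h1 : aeval (circleMap 0 1 θ) p = 1 + t * (circleMap 0 1 θ) ^ k := by
          rw [hp]; simp
        rw [h1, circle_pow, Complex.normSq_apply]
        simp only [Complex.add_re, Complex.add_im, Complex.one_re, Complex.one_im, Complex.mul_re,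
          Complex.mul_im, Complex.ofReal_re, Complex.ofReal_im, zero_mul, sub_zero, add_zero,
          zero_add]
        have e1 := Real.sin_sq_add_cos_sq (k * θ)
        linear_combination (t ^ 2) * e1
      rw [intervalIntegral.integral_congr (g := fun θ => (1 + t ^ 2)
        + 2 * t * Real.cos (k * θ)) (fun θ _ => hpt θ)]
      rw [intervalIntegral.integral_add, intervalIntegral.integral_const_mul,
        integral_cos_nat _ hk]
      · simp; ring
      all_goals
        apply Continuous.intervalIntegrable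
        fun_prop
    rw [hint] at hb
    exact le_of_mul_le_mul_left hb Real.two_pi_pos
  have h1 := key (c 0)
  have h2 := key (-c 0)
  rw [abs_le] at h1 h2 ⊢
  constructor
  · nlinarith [h2.1]
  · nlinarith [h1.2]

theorem c0_lt {c : ℕ → ℝ} (hc : c ∈ HR) : |c 0| < 1 := by
  by_contra h
  push Not at h
  obtain ⟨n, hn, hcn⟩ := hc.1
  have h1 := domain_bound hc n hn
  have h2 : 0 < |c n| := abs_pos.mpr hcn
  have h3 : 1 ≤ |c 0| ^ 2 := by nlinarith
  rw [sq_abs] at h3
  linarith

/-- reversal on the unit circle -/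
theorem norm_reverse (a b : ℝ) (m n : ℕ) (hmn : m ≤ n) (z : ℂ) (hz : ‖z‖ = 1) :
    ‖(a : ℂ) + b * z ^ (n - m) + z ^ n‖ = ‖1 + b * z ^ m + a * z ^ n‖ := by
  have hz0 : z ≠ 0 := by intro h; rw [h] at hz; simp at hz
  have hconj : (starRingEnd ℂ) z = z⁻¹ := by
    rw [Complex.inv_def, Complex.normSq_eq_norm_sq, hz]; simp
  have h1 : (a : ℂ) + b * z ^ (n - m) + z ^ n
      = z ^ n * (starRingEnd ℂ) (1 + b * z ^ m + a * z ^ n) := by
    simp only [map_add, map_mul, map_pow, map_one, Complex.conj_ofReal, hconj]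
    have h2 : z ^ n = z ^ (n - m) * z ^ m := by rw [← pow_add]; congr 1; omega
    have h3 : z ^ n * z⁻¹ ^ m = z ^ (n - m) := by
      rw [h2, mul_assoc, ← mul_pow, mul_inv_cancel₀ hz0, one_pow, mul_one]
    have h4 : z ^ n * z⁻¹ ^ n = 1 := by
      rw [← mul_pow, mul_inv_cancel₀ hz0, one_pow]
    linear_combination (-(b : ℂ)) * h3 - (a : ℂ) * h4
  rw [h1, norm_mul, norm_pow, hz, one_pow, one_mul, RCLike.norm_conj]

theorem mem_HR_of {c : ℕ → ℝ} (N D : ℝ[X]) (hD : ∀ z : ℂ, ‖z‖ ≤ 1 → aeval z D ≠ 0)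
    (hN : ∀ z : ℂ, ‖z‖ = 1 → ‖aeval z N‖ = ‖aeval z D‖)
    (he : (D : PowerSeries ℝ) * PowerSeries.mk c = (N : PowerSeries ℝ))
    (hnc : ∃ n, 0 < n ∧ c n ≠ 0) : c ∈ HR := by
  refine ⟨hnc, N, D, hD, ?_, he⟩
  intro z hz
  rw [norm_div, hN z hz, div_self]
  exact norm_ne_zero_iff.mpr (hD z hz.le)

theorem extremal_one (a b : ℝ) (k l : ℕ) (hk : 0 < k) (hkl : 2 * k < l) (ha : |a| < 1)
    (hz : ∀ z : ℂ, ‖z‖ ≤ 1 → 1 + b * z ^ (l - k) + a * z ^ l ≠ 0) :
    ∃ c ∈ HR, c 0 = a ∧ c k = b ∧ c l = 1 - a ^ 2 - b ^ 2 := by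
  set D : ℝ[X] := C 1 * X ^ 0 + C b * X ^ (l - k) + C a * X ^ l with hD
  set N : ℝ[X] := C a * X ^ 0 + C b * X ^ k + C 1 * X ^ l with hN
  have hD0 : D.coeff 0 = 1 := by
    rw [hD]
    simp only [coeff_add, coeff_C_mul, coeff_X_pow]
    rw [if_pos trivial, if_neg (by omega), if_neg (by omega)]; ring
  obtain ⟨c, hc⟩ := exists_seq N D hD0
  have hrec : ∀ n, c n + (if l - k ≤ n then b * c (n - (l - k)) else 0)
      + (if l ≤ n then a * c (n - l) else 0) = N.coeff n := by
    intro n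
    have := congrArg (PowerSeries.coeff n) hc
    rw [mul_comm, hD] at this
    simp only [Polynomial.coe_add, mul_add, map_add, coeff_term] at this
    rw [if_pos (Nat.zero_le _), Polynomial.coeff_coe, Nat.sub_zero, one_mul] at this
    exact this
  have hNc : ∀ n, N.coeff n = (if n = 0 then a else 0) + (if n = k then b else 0)
      + (if n = l then 1 else 0) := by
    intro n
    rw [hN]
    simp only [coeff_add, coeff_C_mul, coeff_X_pow, mul_ite, mul_one, mul_zero]
  have h0 : c 0 = a := by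
    have := hrec 0
    rw [hNc, if_neg (by omega), if_neg (by omega), if_pos rfl, if_neg (by omega),
      if_neg (by omega)] at this
    linarith
  have hk' : c k = b := by
    have := hrec k
    rw [hNc, if_neg (by omega), if_neg (by omega), if_neg (by omega), if_pos rfl,
      if_neg (by omega)] at this
    linarith
  have hl' : c l = 1 - a ^ 2 - b ^ 2 := by
    have := hrec l
    have h1 : l - (l - k) = k := by omega
    rw [hNc, if_pos (by omega), if_pos le_rfl, if_neg (by omega), if_neg (by omega),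
      if_pos rfl, h1, Nat.sub_self, h0, hk'] at this
    linarith
  refine ⟨c, mem_HR_of N D ?_ ?_ hc ?_, h0, hk', hl'⟩
  · intro z hz1
    have := hz z hz1
    rw [hD]; simpa using this
  · intro z hz1
    have h1 := norm_reverse a b (l - k) l (Nat.sub_le _ _) z hz1
    have h2 : l - (l - k) = k := by omega
    rw [h2] at h1
    rw [hD, hN]
    simpa using h1
  · by_cases hb : b = 0
    · refine ⟨l, by omega, ?_⟩
      rw [hl', hb]
      have : a ^ 2 < 1 := by rw [← sq_abs]; nlinarith [abs_nonneg a]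
      have h2 : 0 < 1 - a ^ 2 - 0 ^ 2 := by nlinarith
      exact h2.ne'
    · exact ⟨k, hk, by rw [hk']; exact hb⟩

/-- The set of values of the coefficient `c l` over `HR` with `c 0 = a` and `c k = b`. -/
def vals (k l : ℕ) (a b : ℝ) : Set ℝ := {x | ∃ c ∈ HR, c 0 = a ∧ c k = b ∧ c l = x}

theorem vals_neg {k l : ℕ} {a b x : ℝ} (h : x ∈ vals k l a b) : -x ∈ vals k l (-a) (-b) := by
  obtain ⟨c, hc, h0, hk, hl⟩ := h
  exact ⟨_, HR_neg hc, by simp [h0], by simp [hk], by simp [hl]⟩

theorem isLeast_of_isGreatest_neg {k l : ℕ} {a b x : ℝ}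
    (h : IsGreatest (vals k l (-a) (-b)) x) : IsLeast (vals k l a b) (-x) := by
  constructor
  · have := vals_neg h.1
    rwa [neg_neg, neg_neg] at this
  · intro y hy
    have := h.2 (vals_neg hy)
    linarith

theorem greatest_one (a b : ℝ) (k l : ℕ) (hk : 0 < k) (hkl : 2 * k < l) (ha : |a| < 1)
    (hz : ∀ z : ℂ, ‖z‖ ≤ 1 → 1 + b * z ^ (l - k) + a * z ^ l ≠ 0) :
    IsGreatest (vals k l a b) (1 - a ^ 2 - b ^ 2) := by
  constructor
  · obtain ⟨c, hc, h0, hk', hl⟩ := extremal_one a b k l hk hkl ha hz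
    exact ⟨c, hc, h0, hk', hl⟩
  · rintro x ⟨c, hc, h0, hk', hl⟩
    have := universal_bound hc k l hk hkl
    rw [h0, hk', hl] at this
    exact (le_abs_self x).trans this

theorem zero_free_of_small (a b : ℝ) (m n : ℕ) (h : |a| + |b| < 1) (z : ℂ) (hz : ‖z‖ ≤ 1) :
    1 + b * z ^ m + a * z ^ n ≠ 0 := by
  intro h0
  have h1 : (1 : ℂ) = -(b * z ^ m) - a * z ^ n := by linear_combination h0
  have h2 : (1 : ℝ) ≤ |b| + |a| := by
    calc (1 : ℝ) = ‖(1 : ℂ)‖ := by simp
      _ = ‖-(b * z ^ m) - a * z ^ n‖ := by rw [← h1]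
      _ ≤ ‖-(b * z ^ m)‖ + ‖a * z ^ n‖ := norm_sub_le _ _
      _ = |b| * ‖z‖ ^ m + |a| * ‖z‖ ^ n := by
          rw [norm_neg, norm_mul, norm_mul, norm_pow, norm_pow]; simp
      _ ≤ |b| * 1 + |a| * 1 := by
          gcongr
          · exact pow_le_one₀ (norm_nonneg _) hz
          · exact pow_le_one₀ (norm_nonneg _) hz
      _ = |b| + |a| := by ring
  linarith

end

end Pool.Agent.H156.Schur
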