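import Mathlib
import Pool.Agent.H156.Schur

namespace Pool.Agent.H156.Schur

open Polynomial MeasureTheory

noncomputable section

/-- Taylor coefficients of `sqrt (1 + 2 x)`. -/
def gam : ℕ → ℝ
  | 0 => 1
  | (n + 1) => (-1) ^ n * (catalan n : ℝ) / 2 ^ n

theorem gam_conv_big (n : ℕ) :
    ∑ ij ∈ Finset.HasAntidiagonal.antidiagonal (n + 2), gam ij.1 * gam ij.2 = 0 := by
  rw [Finset.Nat.antidiagonal_succ_succ', Finset.sum_cons, Finset.sum_cons, Finset.sum_map]
  have h1 : ∑ x ∈ Finset.HasAntidiagonal.antidiagonal n, gam ((Function.Embedding.prodMap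
      ⟨Nat.succ, Nat.succ_injective⟩ ⟨Nat.succ, Nat.succ_injective⟩) x).1
      * gam ((Function.Embedding.prodMap
      ⟨Nat.succ, Nat.succ_injective⟩ ⟨Nat.succ, Nat.succ_injective⟩) x).2
      = (-1) ^ n * (catalan (n + 1) : ℝ) / 2 ^ n := by
    rw [catalan_succ', Nat.cast_sum, Finset.mul_sum, Finset.sum_div]
    apply Finset.sum_congr rfl
    rintro ⟨i, j⟩ hij
    have hij' : i + j = n := by simpa using hij
    simp only [Function.Embedding.prodMap, Function.Embedding.coeFn_mk, Prod.map, gam]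
    rw [← hij', pow_add, pow_add]
    push_cast
    field_simp
  rw [h1]
  simp only [gam]
  rw [pow_succ, pow_succ]
  field_simp
  ring

theorem gam_conv (m : ℕ) : ∑ ij ∈ Finset.HasAntidiagonal.antidiagonal m, gam ij.1 * gam ij.2
    = if m = 0 then 1 else if m = 1 then 2 else 0 := by
  rcases m with _ | _ | n
  · simp [gam]
  · rw [Finset.Nat.antidiagonal_succ]
    simp [gam]
    norm_num
  · rw [gam_conv_big]; simp

theorem parseval (s : Finset ℕ) (r : ℕ → ℝ) (e : ℕ → ℕ) (he : Set.InjOn e s) :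
    ∫ θ in (0:ℝ)..2 * Real.pi,
      ‖aeval (circleMap 0 1 θ) ((∑ i ∈ s, C (r i) * X ^ (e i) : ℝ[X]) ^ 2)‖
      = 2 * Real.pi * ∑ i ∈ s, r i ^ 2 := by
  have hpt : ∀ θ : ℝ, ‖aeval (circleMap 0 1 θ) ((∑ i ∈ s, C (r i) * X ^ (e i) : ℝ[X]) ^ 2)‖
      = ∑ i ∈ s, ∑ j ∈ s, r i * r j * Real.cos (((e i : ℝ) - e j) * θ) := by
    intro θ
    rw [map_pow, norm_pow, ← Complex.normSq_eq_norm_sq]
    have h1 : aeval (circleMap 0 1 θ) (∑ i ∈ s, C (r i) * X ^ (e i) : ℝ[X])
        = (⟨∑ i ∈ s, r i * Real.cos (e i * θ), ∑ i ∈ s, r i * Real.sin (e i * θ)⟩ : ℂ) := by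
      rw [map_sum]
      apply Complex.ext
      · rw [Complex.re_sum]
        apply Finset.sum_congr rfl
        intro i _
        simp only [map_mul, map_pow, aeval_C, aeval_X, circle_pow]
        simp
      · rw [Complex.im_sum]
        apply Finset.sum_congr rfl
        intro i _
        simp only [map_mul, map_pow, aeval_C, aeval_X, circle_pow]
        simp
    rw [h1, Complex.normSq_apply]
    simp only
    rw [Finset.sum_mul_sum, Finset.sum_mul_sum, ← Finset.sum_add_distrib]
    apply Finset.sum_congr rfl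
    intro i _
    rw [← Finset.sum_add_distrib]
    apply Finset.sum_congr rfl
    intro j _
    rw [sub_mul, Real.cos_sub]
    ring
  rw [intervalIntegral.integral_congr (g := fun θ =>
    ∑ i ∈ s, ∑ j ∈ s, r i * r j * Real.cos (((e i : ℝ) - e j) * θ)) (fun θ _ => hpt θ)]
  rw [intervalIntegral.integral_finsetSum, Finset.mul_sum]
  · apply Finset.sum_congr rfl
    intro i hi
    rw [intervalIntegral.integral_finsetSum]
    · rw [Finset.sum_eq_single i]
      · rw [sub_self]
        simp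
        ring
      · intro j hj hji
        have hne : ((e i : ℝ) - e j) ≠ 0 := by
          intro h0
          have : e i = e j := by exact_mod_cast sub_eq_zero.mp h0
          exact hji (he hj hi this.symm)
        rw [intervalIntegral.integral_const_mul,
          intervalIntegral.integral_comp_mul_left (fun x => Real.cos x) hne, integral_cos]
        have hs : Real.sin (((e i : ℝ) - e j) * (2 * Real.pi)) = 0 := by
          have := Real.sin_int_mul_pi (2 * ((e i : ℤ) - e j))
          rw [← this]; congr 1; push_cast; ring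
        simp [hs]
      · intro h; exact absurd hi h
    · intro j _
      apply Continuous.intervalIntegrable
      fun_prop
  · intro i _
    apply Continuous.intervalIntegrable
    fun_prop

/-- number of indices `i` with `i (l-k) < l` -/
def MM (k l : ℕ) : ℕ := (l - 1) / (l - k) + 1

theorem MM_pos (k l : ℕ) : 0 < MM k l := Nat.succ_pos _

theorem lt_MM {k l : ℕ} (hkl : k < l) (i : ℕ) : i < MM k l ↔ i * (l - k) < l := by
  have hd : 0 < l - k := by omega
  unfold MM
  rw [Nat.lt_succ_iff, Nat.le_div_iff_mul_le hd]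
  omega

theorem MM_mul {k l : ℕ} (hkl : k < l) : l ≤ MM k l * (l - k) := by
  by_contra h
  push Not at h
  exact lt_irrefl _ ((lt_MM hkl (MM k l)).mpr h)

theorem two_le_MM {k l : ℕ} (hk : 0 < k) (hkl : k < l) : 2 ≤ MM k l := by
  have := (lt_MM hkl 1).mpr (by omega)
  omega

def ev (k l : ℕ) (s : ℝ) : ℝ := if MM k l * (l - k) = l then gam (MM k l) * s ^ (MM k l) else 0

def SS (M : ℕ) (s : ℝ) : ℝ[X] := ∑ i ∈ Finset.range M, C (gam i * s ^ i) * X ^ i

theorem SS_coeff (M : ℕ) (s : ℝ) (m : ℕ) :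
    (SS M s).coeff m = if m < M then gam m * s ^ m else 0 := by
  unfold SS
  rw [Polynomial.finsetSum_coeff]
  simp only [Polynomial.coeff_C_mul, Polynomial.coeff_X_pow]
  by_cases hn : m < M
  · rw [if_pos hn, Finset.sum_eq_single m]
    · simp
    · intro b _ hb; rw [if_neg (Ne.symm hb), mul_zero]
    · intro h; exact absurd (Finset.mem_range.mpr hn) h
  · rw [if_neg hn]
    apply Finset.sum_eq_zero
    intro b hb
    have := Finset.mem_range.mp hb
    rw [if_neg (by omega), mul_zero]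

theorem SS_sq_coeff_lt (M : ℕ) (s : ℝ) (m : ℕ) (hm : m < M) :
    ((SS M s) ^ 2).coeff m = (if m = 0 then 1 else if m = 1 then 2 else 0) * s ^ m := by
  rw [pow_two, Polynomial.coeff_mul, ← gam_conv, Finset.sum_mul]
  apply Finset.sum_congr rfl
  rintro ⟨i, j⟩ hij
  have hij' : i + j = m := by simpa using hij
  simp only [SS_coeff]
  rw [if_pos (by omega), if_pos (by omega), ← hij', pow_add]
  ring

theorem SS_sq_coeff_top (n : ℕ) (s : ℝ) :
    ((SS (n + 2) s) ^ 2).coeff (n + 2) = -2 * gam (n + 2) * s ^ (n + 2) := by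
  have h := gam_conv_big n
  rw [Finset.Nat.antidiagonal_succ_succ', Finset.sum_cons, Finset.sum_cons, Finset.sum_map] at h
  rw [pow_two, Polynomial.coeff_mul, Finset.Nat.antidiagonal_succ_succ', Finset.sum_cons,
    Finset.sum_cons, Finset.sum_map]
  simp only [SS_coeff]
  rw [if_neg (lt_irrefl (n + 2))]
  have h1 : ∑ x ∈ Finset.HasAntidiagonal.antidiagonal n,
      (if ((Function.Embedding.prodMap ⟨Nat.succ, Nat.succ_injective⟩
        ⟨Nat.succ, Nat.succ_injective⟩) x).1 < n + 2 then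
        gam ((Function.Embedding.prodMap ⟨Nat.succ, Nat.succ_injective⟩
        ⟨Nat.succ, Nat.succ_injective⟩) x).1 * s ^ ((Function.Embedding.prodMap
        ⟨Nat.succ, Nat.succ_injective⟩ ⟨Nat.succ, Nat.succ_injective⟩) x).1 else 0) *
      (if ((Function.Embedding.prodMap ⟨Nat.succ, Nat.succ_injective⟩
        ⟨Nat.succ, Nat.succ_injective⟩) x).2 < n + 2 then
        gam ((Function.Embedding.prodMap ⟨Nat.succ, Nat.succ_injective⟩
        ⟨Nat.succ, Nat.succ_injective⟩) x).2 * s ^ ((Function.Embedding.prodMap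
        ⟨Nat.succ, Nat.succ_injective⟩ ⟨Nat.succ, Nat.succ_injective⟩) x).2 else 0)
      = (∑ x ∈ Finset.HasAntidiagonal.antidiagonal n, gam ((Function.Embedding.prodMap
      ⟨Nat.succ, Nat.succ_injective⟩ ⟨Nat.succ, Nat.succ_injective⟩) x).1
      * gam ((Function.Embedding.prodMap
      ⟨Nat.succ, Nat.succ_injective⟩ ⟨Nat.succ, Nat.succ_injective⟩) x).2) * s ^ (n + 2) := by
    rw [Finset.sum_mul]
    apply Finset.sum_congr rfl
    rintro ⟨i, j⟩ hij
    have hij' : i + j = n := by simpa using hij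
    have hi : i + 1 < n + 2 := by omega
    have hj : j + 1 < n + 2 := by omega
    show (if i + 1 < n + 2 then gam (i + 1) * s ^ (i + 1) else 0)
      * (if j + 1 < n + 2 then gam (j + 1) * s ^ (j + 1) else 0)
      = gam (i + 1) * gam (j + 1) * s ^ (n + 2)
    rw [if_pos hi, if_pos hj]
    have : s ^ (n + 2) = s ^ (i + 1) * s ^ (j + 1) := by
      rw [← pow_add]; congr 1; omega
    rw [this]; ring
  rw [h1]
  have h2 : gam 0 = 1 := rfl
  simp only at h
  rw [h2] at h
  have h3 : (∑ x ∈ Finset.HasAntidiagonal.antidiagonal n, gam ((Function.Embedding.prodMap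
      ⟨Nat.succ, Nat.succ_injective⟩ ⟨Nat.succ, Nat.succ_injective⟩) x).1
      * gam ((Function.Embedding.prodMap
      ⟨Nat.succ, Nat.succ_injective⟩ ⟨Nat.succ, Nat.succ_injective⟩) x).2)
      = - 2 * gam (n + 2) := by linarith
  rw [h3]
  ring

theorem SS_sq (M : ℕ) (hM : 2 ≤ M) (s : ℝ) : ∃ R : ℝ[X], (SS M s) ^ 2
    = C 1 * X ^ 0 + C (2 * s) * X ^ 1 + C (-2 * gam M * s ^ M) * X ^ M + X ^ (M + 1) * R := by
  have hdvd : (X : ℝ[X]) ^ (M + 1) ∣ (SS M s) ^ 2
      - (C 1 * X ^ 0 + C (2 * s) * X ^ 1 + C (-2 * gam M * s ^ M) * X ^ M) := by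
    rw [Polynomial.X_pow_dvd_iff]
    intro m hm
    simp only [Polynomial.coeff_sub, Polynomial.coeff_add, Polynomial.coeff_C_mul,
      Polynomial.coeff_X_pow]
    rcases Nat.lt_succ_iff_lt_or_eq.mp hm with h | h
    · rw [SS_sq_coeff_lt M s m h]
      by_cases h0 : m = 0
      · rw [h0]; simp; omega
      · by_cases h1 : m = 1
        · rw [h1]; simp; omega
        · rw [if_neg h0, if_neg h1, if_neg h0, if_neg h1, if_neg (by omega)]
          ring
    · rw [h]
      obtain ⟨n, hn⟩ : ∃ n, M = n + 2 := ⟨M - 2, by omega⟩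
      rw [hn, SS_sq_coeff_top, if_neg (by omega), if_neg (by omega), if_pos rfl]
      ring
  obtain ⟨R, hR⟩ := hdvd
  exact ⟨R, by rw [← hR]; ring⟩

theorem coeff_term_big (c : ℕ → ℝ) (R : ℝ[X]) (m L : ℕ) (h : L < m) :
    PowerSeries.coeff L (PowerSeries.mk c * ((X ^ m * R : ℝ[X]) : PowerSeries ℝ)) = 0 := by
  rw [Polynomial.coe_mul, Polynomial.coe_pow, Polynomial.coe_X, mul_left_comm,
    PowerSeries.coeff_X_pow_mul', if_neg (by omega)]

/-- the kernel polynomial -/
def pp (k l : ℕ) (s u : ℝ) : ℝ[X] := expand ℝ (l - k) (SS (MM k l) s) + C u * X ^ l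

theorem coeff_kernel (c : ℕ → ℝ) (k l : ℕ) (hk : 0 < k) (hkl : k < l) (s u : ℝ) :
    PowerSeries.coeff l (PowerSeries.mk c * ((pp k l s u ^ 2 : ℝ[X]) : PowerSeries ℝ))
      = c l + 2 * s * c k + 2 * (u - ev k l s) * c 0 := by
  have hd : 0 < l - k := by omega
  obtain ⟨R, hR⟩ := SS_sq (MM k l) (two_le_MM hk hkl) s
  have hMl := MM_mul hkl
  set E : ℝ[X] := expand ℝ (l - k) (SS (MM k l) s) with hE
  have hE0 : E.coeff 0 = 1 := by
    rw [hE, Polynomial.coeff_expand hd, if_pos (dvd_zero _), Nat.zero_div, SS_coeff,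
      if_pos (by have := two_le_MM hk hkl; omega)]
    simp [gam]
  have hE2 : E ^ 2 = C 1 * X ^ 0 + C (2 * s) * X ^ (l - k)
      + C (-2 * gam (MM k l) * s ^ (MM k l)) * X ^ (MM k l * (l - k))
      + X ^ ((MM k l + 1) * (l - k)) * expand ℝ (l - k) R := by
    rw [hE, ← map_pow, hR]
    simp only [map_add, map_mul, expand_C, expand_X, map_pow]
    rw [← pow_mul, ← pow_mul, ← pow_mul, ← pow_mul]
    rw [mul_zero, mul_one, mul_comm (l - k) (MM k l), mul_comm (l - k) (MM k l + 1)]
  have hp2 : pp k l s u ^ 2 = C 1 * X ^ 0 + C (2 * s) * X ^ (l - k)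
      + C (-2 * gam (MM k l) * s ^ (MM k l)) * X ^ (MM k l * (l - k))
      + X ^ ((MM k l + 1) * (l - k)) * expand ℝ (l - k) R
      + X ^ l * (C (2 * u) * E) + C (u ^ 2) * X ^ (2 * l) := by
    rw [← hE2]
    unfold pp
    rw [← hE]
    simp only [map_mul, map_pow, map_ofNat, pow_mul']
    ring
  rw [hp2]
  have hsplit : ∀ A B : ℝ[X], PowerSeries.coeff l (PowerSeries.mk c * ((A + B : ℝ[X]) : PowerSeries ℝ))
      = PowerSeries.coeff l (PowerSeries.mk c * (A : PowerSeries ℝ))
      + PowerSeries.coeff l (PowerSeries.mk c * (B : PowerSeries ℝ)) := by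
    intro A B
    rw [Polynomial.coe_add, mul_add, map_add]
  rw [hsplit, hsplit, hsplit, hsplit, hsplit, coeff_term, coeff_term, coeff_term, coeff_term,
    coeff_term_big c _ _ _ (by nlinarith), if_pos (Nat.zero_le _), if_pos (Nat.sub_le _ _),
    if_neg (show ¬ 2 * l ≤ l by omega)]
  have hlast : PowerSeries.coeff l (PowerSeries.mk c * ((X ^ l * (C (2 * u) * E) : ℝ[X])
      : PowerSeries ℝ)) = 2 * u * c 0 := by
    rw [Polynomial.coe_mul, Polynomial.coe_pow, Polynomial.coe_X, mul_left_comm,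
      PowerSeries.coeff_X_pow_mul', if_pos le_rfl, Nat.sub_self,
      PowerSeries.coeff_zero_eq_constantCoeff_apply, map_mul,
      ← PowerSeries.coeff_zero_eq_constantCoeff_apply,
      ← PowerSeries.coeff_zero_eq_constantCoeff_apply, Polynomial.coeff_coe,
      Polynomial.coeff_C_mul, hE0, PowerSeries.coeff_mk]
    ring
  rw [hlast]
  have h1 : l - (l - k) = k := by omega
  rw [h1, Nat.sub_zero]
  unfold ev
  by_cases hc : MM k l * (l - k) = l
  · rw [if_pos hc, if_pos hc.le, hc, Nat.sub_self]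
    ring
  · rw [if_neg hc, if_neg (by omega)]
    ring

def rr (M : ℕ) (s u : ℝ) (i : ℕ) : ℝ := if i < M then gam i * s ^ i else u

def ee (k l i : ℕ) : ℕ := if i < MM k l then i * (l - k) else l

theorem pp_eq (k l : ℕ) (s u : ℝ) : pp k l s u
    = ∑ i ∈ Finset.range (MM k l + 1), C (rr (MM k l) s u i) * X ^ (ee k l i) := by
  rw [Finset.sum_range_succ]
  have h1 : rr (MM k l) s u (MM k l) = u := by unfold rr; rw [if_neg (lt_irrefl _)]
  have h2 : ee k l (MM k l) = l := by unfold ee; rw [if_neg (lt_irrefl _)]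
  rw [h1, h2]
  unfold pp SS
  rw [map_sum]
  congr 1
  apply Finset.sum_congr rfl
  intro i hi
  have hi' := Finset.mem_range.mp hi
  unfold rr ee
  rw [if_pos hi', if_pos hi', map_mul, expand_C, map_pow, expand_X, ← pow_mul, mul_comm (l - k) i]

theorem ee_inj {k l : ℕ} (hkl : k < l) : Set.InjOn (ee k l) (Finset.range (MM k l + 1)) := by
  intro i hi j hj h
  have hd : 0 < l - k := by omega
  have hi' : i < MM k l + 1 := by simpa using hi
  have hj' : j < MM k l + 1 := by simpa using hj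
  unfold ee at h
  split_ifs at h with h1 h2 h2
  · exact Nat.eq_of_mul_eq_mul_right hd h
  · have := (lt_MM hkl i).mp h1; omega
  · have := (lt_MM hkl j).mp h2; omega
  · omega

theorem sum_rr (M : ℕ) (s u : ℝ) : ∑ i ∈ Finset.range (M + 1), rr M s u i ^ 2
    = ∑ i ∈ Finset.range M, (gam i * s ^ i) ^ 2 + u ^ 2 := by
  rw [Finset.sum_range_succ]
  congr 1
  · apply Finset.sum_congr rfl
    intro i hi
    unfold rr; rw [if_pos (Finset.mem_range.mp hi)]
  · unfold rr; rw [if_neg (lt_irrefl _)]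

theorem kernel_all {c : ℕ → ℝ} (hc : c ∈ HR) (k l : ℕ) (hk : 0 < k) (hkl : k < l) (s u : ℝ) :
    |c l + 2 * s * c k + 2 * (u - ev k l s) * c 0|
      ≤ ∑ i ∈ Finset.range (MM k l), (gam i * s ^ i) ^ 2 + u ^ 2 := by
  obtain ⟨-, P, Q, hQ, hP, he⟩ := hc
  have hb := coeff_bound hQ hP he (pp k l s u ^ 2) l
  rw [coeff_kernel c k l hk hkl s u, pp_eq, parseval _ _ _ (ee_inj hkl), sum_rr] at hb
  exact le_of_mul_le_mul_left hb Real.two_pi_pos

def NN (k l : ℕ) (s u : ℝ) : ℝ[X] :=
  ∑ i ∈ Finset.range (MM k l + 1), C (rr (MM k l) s u i) * X ^ (l - ee k l i)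

theorem ee_le {k l : ℕ} (hkl : k < l) (i : ℕ) : ee k l i ≤ l := by
  unfold ee
  split_ifs with h
  · exact ((lt_MM hkl i).mp h).le
  · exact le_rfl

theorem ee_zero_iff {k l : ℕ} (hkl : k < l) (i : ℕ) : ee k l i = 0 ↔ i = 0 := by
  have hd : 0 < l - k := by omega
  constructor
  · intro h
    unfold ee at h
    split_ifs at h with h1
    · rcases Nat.mul_eq_zero.mp h with h2 | h2
      · exact h2
      · omega
    · omega
  · intro h
    rw [h]; unfold ee
    rw [if_pos (MM_pos k l)]; simp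

theorem ee_top_iff {k l : ℕ} (hkl : k < l) (i : ℕ) (hi : i < MM k l + 1) :
    ee k l i = l ↔ i = MM k l := by
  constructor
  · intro h
    unfold ee at h
    split_ifs at h with h1
    · have := (lt_MM hkl i).mp h1; omega
    · omega
  · intro h
    rw [h]; unfold ee
    rw [if_neg (lt_irrefl _)]

theorem rr_zero {k l : ℕ} (s u : ℝ) : rr (MM k l) s u 0 = 1 := by
  unfold rr
  rw [if_pos (MM_pos k l)]
  simp [gam]

theorem rr_top (M : ℕ) (s u : ℝ) : rr M s u M = u := by
  unfold rr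
  rw [if_neg (lt_irrefl _)]

theorem sum_coeff (t : Finset ℕ) (r : ℕ → ℝ) (e : ℕ → ℕ) (n : ℕ) :
    (∑ i ∈ t, C (r i) * X ^ (e i) : ℝ[X]).coeff n = ∑ i ∈ t, if e i = n then r i else 0 := by
  rw [Polynomial.finsetSum_coeff]
  apply Finset.sum_congr rfl
  intro i _
  rw [Polynomial.coeff_C_mul, Polynomial.coeff_X_pow]
  by_cases h : e i = n
  · rw [if_pos h, if_pos h.symm, mul_one]
  · rw [if_neg h, if_neg (Ne.symm h), mul_zero]

theorem prod_coeff {k l : ℕ} (hkl : k < l) (s u : ℝ) :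
    (NN k l s u * pp k l s u).coeff l = ∑ i ∈ Finset.range (MM k l + 1), rr (MM k l) s u i ^ 2 := by
  rw [pp_eq]
  unfold NN
  rw [Finset.sum_mul_sum, Polynomial.finsetSum_coeff]
  apply Finset.sum_congr rfl
  intro i hi
  rw [Polynomial.finsetSum_coeff]
  have hterm : ∀ j, (C (rr (MM k l) s u i) * X ^ (l - ee k l i)
      * (C (rr (MM k l) s u j) * X ^ (ee k l j)) : ℝ[X]).coeff l
      = if l = l - ee k l i + ee k l j then rr (MM k l) s u i * rr (MM k l) s u j else 0 := by
    intro j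
    have : (C (rr (MM k l) s u i) * X ^ (l - ee k l i)
      * (C (rr (MM k l) s u j) * X ^ (ee k l j)) : ℝ[X])
      = C (rr (MM k l) s u i * rr (MM k l) s u j) * X ^ (l - ee k l i + ee k l j) := by
      rw [map_mul, pow_add]; ring
    rw [this, Polynomial.coeff_C_mul, Polynomial.coeff_X_pow, mul_ite, mul_one, mul_zero]
  simp only [hterm]
  rw [Finset.sum_eq_single i]
  · rw [if_pos (by have := ee_le hkl i; omega)]; ring
  · intro j hj hji
    rw [if_neg]
    intro h
    have h1 := ee_le hkl i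
    have h2 : ee k l j = ee k l i := by omega
    exact hji (ee_inj hkl hj hi h2)
  · intro h; exact absurd hi h

theorem norm_NN {k l : ℕ} (hkl : k < l) (s u : ℝ) (z : ℂ) (hz : ‖z‖ = 1) :
    ‖aeval z (NN k l s u)‖ = ‖aeval z (pp k l s u)‖ := by
  have hz0 : z ≠ 0 := by intro h; rw [h] at hz; simp at hz
  have hconj : (starRingEnd ℂ) z = z⁻¹ := by
    rw [Complex.inv_def, Complex.normSq_eq_norm_sq, hz]; simp
  have h1 : aeval z (NN k l s u) = z ^ l * (starRingEnd ℂ) (aeval z (pp k l s u)) := by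
    rw [pp_eq]
    unfold NN
    rw [map_sum, map_sum, map_sum, Finset.mul_sum]
    apply Finset.sum_congr rfl
    intro i _
    simp only [map_mul, map_pow, aeval_C, aeval_X, Complex.coe_algebraMap, Complex.conj_ofReal,
      hconj]
    have hle := ee_le hkl i
    have h2 : z ^ l = z ^ (l - ee k l i) * z ^ (ee k l i) := by rw [← pow_add]; congr 1; omega
    rw [h2]
    have h3 : z ^ (ee k l i) * z⁻¹ ^ (ee k l i) = 1 := by
      rw [← mul_pow, mul_inv_cancel₀ hz0, one_pow]
    linear_combination (-(rr (MM k l) s u i : ℂ) * z ^ (l - ee k l i)) * h3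
  rw [h1, norm_mul, norm_pow, hz, one_pow, one_mul, RCLike.norm_conj]

theorem extremal_all (k l : ℕ) (hk : 0 < k) (hkl : k < l) (s a : ℝ) (ha : |a| < 1)
    (hz : ∀ z : ℂ, ‖z‖ ≤ 1 → aeval z (pp k l s a) ≠ 0) :
    ∃ c ∈ HR, c 0 = a ∧ c l + 2 * s * c k + 2 * (a - ev k l s) * a
      = ∑ i ∈ Finset.range (MM k l), (gam i * s ^ i) ^ 2 + a ^ 2 := by
  have hM0 : 0 ∈ Finset.range (MM k l + 1) := by simp
  have hMM : MM k l ∈ Finset.range (MM k l + 1) := by simp
  have hD0 : (pp k l s a).coeff 0 = 1 := by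
    rw [pp_eq, sum_coeff, Finset.sum_eq_single 0]
    · rw [if_pos ((ee_zero_iff hkl 0).mpr rfl), rr_zero]
    · intro j _ hj
      rw [if_neg (fun h => hj ((ee_zero_iff hkl j).mp h))]
    · intro h; exact absurd hM0 h
  have hDl : (pp k l s a).coeff l = a := by
    rw [pp_eq, sum_coeff, Finset.sum_eq_single (MM k l)]
    · rw [if_pos ((ee_top_iff hkl _ (by omega)).mpr rfl), rr_top]
    · intro j hj hj2
      rw [if_neg (fun h => hj2 ((ee_top_iff hkl j (by simpa using hj)).mp h))]
    · intro h; exact absurd hMM h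
  have hN0 : (NN k l s a).coeff 0 = a := by
    unfold NN
    rw [sum_coeff, Finset.sum_eq_single (MM k l)]
    · rw [if_pos (by rw [(ee_top_iff hkl _ (by omega)).mpr rfl, Nat.sub_self]), rr_top]
    · intro j hj hj2
      rw [if_neg]
      intro h
      have h1 := ee_le hkl j
      exact hj2 ((ee_top_iff hkl j (by simpa using hj)).mp (by omega))
    · intro h; exact absurd hMM h
  have hNl : (NN k l s a).coeff l = 1 := by
    unfold NN
    rw [sum_coeff, Finset.sum_eq_single 0]
    · rw [if_pos (by rw [(ee_zero_iff hkl 0).mpr rfl, Nat.sub_zero]), rr_zero]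
    · intro j _ hj
      rw [if_neg]
      intro h
      have h1 := ee_le hkl j
      exact hj ((ee_zero_iff hkl j).mp (by omega))
    · intro h; exact absurd hM0 h
  obtain ⟨c, hc⟩ := exists_seq (NN k l s a) (pp k l s a) hD0
  have h0 : c 0 = a := by
    have := congrArg (PowerSeries.coeff 0) hc
    rw [PowerSeries.coeff_zero_eq_constantCoeff_apply, map_mul,
      ← PowerSeries.coeff_zero_eq_constantCoeff_apply,
      ← PowerSeries.coeff_zero_eq_constantCoeff_apply, Polynomial.coeff_coe, hD0, one_mul,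
      PowerSeries.coeff_mk, PowerSeries.coeff_zero_eq_constantCoeff_apply,
      ← PowerSeries.coeff_zero_eq_constantCoeff_apply, Polynomial.coeff_coe, hN0] at this
    exact this
  have hnc : ∃ n, 0 < n ∧ c n ≠ 0 := by
    by_contra hcon
    push Not at hcon
    have := congrArg (PowerSeries.coeff l) hc
    rw [PowerSeries.coeff_mul, Polynomial.coeff_coe, hNl] at this
    rw [Finset.sum_eq_single (l, 0)] at this
    · simp only [Polynomial.coeff_coe, hDl, PowerSeries.coeff_mk, h0] at this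
      have h2 : |a| ^ 2 = 1 := by rw [sq_abs]; nlinarith
      nlinarith [abs_nonneg a]
    · rintro ⟨i, j⟩ hij hne
      have hij' : i + j = l := by simpa using hij
      have hj : 0 < j := by
        rcases Nat.eq_zero_or_pos j with h | h
        · exfalso; apply hne
          rw [h] at hij'
          rw [Prod.mk.injEq]; exact ⟨by omega, h⟩
        · exact h
      simp only [PowerSeries.coeff_mk]
      rw [hcon j hj, mul_zero]
    · intro h
      exfalso; apply h; simp
  refine ⟨c, mem_HR_of (NN k l s a) (pp k l s a) hz (fun z hz1 => norm_NN hkl s a z hz1) hc hnc,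
    h0, ?_⟩
  have h1 := coeff_kernel c k l hk hkl s a
  rw [h0] at h1
  rw [← h1, ← sum_rr, ← prod_coeff hkl, ← Polynomial.coeff_coe]
  congr 1
  rw [Polynomial.coe_mul, ← hc, Polynomial.coe_pow]
  ring

/-- The value of `c_k` at the parameters `(s, a)`. -/
def BB (k l : ℕ) (s a : ℝ) : ℝ :=
  ∑ i ∈ Finset.range (MM k l), (i : ℝ) * gam i ^ 2 * s ^ (2 * i - 1)
    + if MM k l * (l - k) = l then a * (MM k l : ℝ) * gam (MM k l) * s ^ (MM k l - 1) else 0

/-- The extremal value of `c_l` at the parameters `(s, a)`. -/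
def VV (k l : ℕ) (s a : ℝ) : ℝ :=
  ∑ i ∈ Finset.range (MM k l), (1 - 2 * (i : ℝ)) * (gam i * s ^ i) ^ 2 - a ^ 2
    - 2 * ((MM k l : ℝ) - 1) * a * ev k l s

theorem VV_eq (k l : ℕ) (s a : ℝ) : VV k l s a
    = ∑ i ∈ Finset.range (MM k l), (gam i * s ^ i) ^ 2 + a ^ 2 - 2 * s * BB k l s a
      - 2 * (a - ev k l s) * a := by
  have h1 : ∑ i ∈ Finset.range (MM k l), (1 - 2 * (i : ℝ)) * (gam i * s ^ i) ^ 2
      = ∑ i ∈ Finset.range (MM k l), (gam i * s ^ i) ^ 2
        - 2 * s * ∑ i ∈ Finset.range (MM k l), (i : ℝ) * gam i ^ 2 * s ^ (2 * i - 1) := by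
    rw [Finset.mul_sum, ← Finset.sum_sub_distrib]
    apply Finset.sum_congr rfl
    intro i _
    rcases i with _ | n
    · simp
    · have : s * s ^ (2 * (n + 1) - 1) = (s ^ (n + 1)) ^ 2 := by
        rw [← pow_succ', ← pow_mul]; congr 1; omega
      rw [mul_pow]
      linear_combination (2 * ((n + 1 : ℕ) : ℝ) * gam (n + 1) ^ 2) * this
  unfold VV BB ev
  rw [h1]
  have hM : MM k l = MM k l - 1 + 1 := by have := MM_pos k l; omega
  have hpow : s * s ^ (MM k l - 1) = s ^ (MM k l) := by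
    rw [← pow_succ', ← hM]
  by_cases hc : MM k l * (l - k) = l
  · rw [if_pos hc, if_pos hc]
    linear_combination (2 * a * (MM k l : ℝ) * gam (MM k l)) * hpow
  · rw [if_neg hc, if_neg hc]
    ring

theorem ck_eq (k l : ℕ) (s a x y : ℝ)
    (hle : ∀ t : ℝ, x + 2 * t * y + 2 * (a - ev k l t) * a
      ≤ ∑ i ∈ Finset.range (MM k l), (gam i * t ^ i) ^ 2 + a ^ 2)
    (heq : x + 2 * s * y + 2 * (a - ev k l s) * a
      = ∑ i ∈ Finset.range (MM k l), (gam i * s ^ i) ^ 2 + a ^ 2) : y = BB k l s a := by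
  set h : ℝ → ℝ := fun t => ∑ i ∈ Finset.range (MM k l), (gam i * t ^ i) ^ 2 + a ^ 2
    - (x + 2 * t * y + 2 * (a - ev k l t) * a) with hh
  have hmin : IsLocalMin h s := by
    apply Filter.Eventually.of_forall
    intro t
    simp only [hh]
    rw [heq, sub_self]
    linarith [hle t]
  have hev : HasDerivAt (fun t => ev k l t)
      (if MM k l * (l - k) = l then gam (MM k l) * ((MM k l : ℝ) * s ^ (MM k l - 1)) else 0) s := by
    unfold ev
    by_cases hc : MM k l * (l - k) = l
    · simp only [if_pos hc]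
      exact (hasDerivAt_pow (MM k l) s).const_mul _
    · simp only [if_neg hc]
      exact hasDerivAt_const s 0
  have hsum : HasDerivAt (fun t : ℝ => ∑ i ∈ Finset.range (MM k l), (gam i * t ^ i) ^ 2)
      (∑ i ∈ Finset.range (MM k l), 2 * ((i : ℝ) * gam i ^ 2 * s ^ (2 * i - 1))) s := by
    apply HasDerivAt.fun_sum
    intro i _
    have h1 : (fun t : ℝ => (gam i * t ^ i) ^ 2) = fun t : ℝ => gam i ^ 2 * t ^ (2 * i) := by
      funext t; rw [mul_pow, ← pow_mul, mul_comm i 2]
    rw [h1]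
    have h2 := (hasDerivAt_pow (2 * i) s).const_mul (gam i ^ 2)
    have h3 : gam i ^ 2 * (((2 * i : ℕ) : ℝ) * s ^ (2 * i - 1))
        = 2 * ((i : ℝ) * gam i ^ 2 * s ^ (2 * i - 1)) := by push_cast; ring
    rw [h3] at h2
    exact h2
  have hder : HasDerivAt h ((∑ i ∈ Finset.range (MM k l), 2 * ((i : ℝ) * gam i ^ 2
      * s ^ (2 * i - 1))) + 0 - (0 + 2 * 1 * y + 2 * (0 - (if MM k l * (l - k) = l then
        gam (MM k l) * ((MM k l : ℝ) * s ^ (MM k l - 1)) else 0)) * a)) s := by
    simp only [hh]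
    apply HasDerivAt.sub
    · exact hsum.add (hasDerivAt_const s _)
    · apply HasDerivAt.add
      · apply HasDerivAt.add
        · exact hasDerivAt_const s _
        · exact ((hasDerivAt_id s).const_mul 2).mul_const y
      · apply HasDerivAt.mul_const
        apply HasDerivAt.const_mul
        exact (hasDerivAt_const s a).sub hev
  have hz := hmin.hasDerivAt_eq_zero hder
  rw [← Finset.mul_sum] at hz
  unfold BB
  by_cases hc : MM k l * (l - k) = l
  · rw [if_pos hc] at hz ⊢
    linarith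
  · rw [if_neg hc] at hz ⊢
    linarith

theorem greatest_all (k l : ℕ) (hk : 0 < k) (hkl : k < l) (s a : ℝ) (ha : |a| < 1)
    (hz : ∀ z : ℂ, ‖z‖ ≤ 1 → aeval z (pp k l s a) ≠ 0) :
    IsGreatest (vals k l a (BB k l s a)) (VV k l s a) := by
  constructor
  · obtain ⟨c, hc, h0, heq⟩ := extremal_all k l hk hkl s a ha hz
    have hck : c k = BB k l s a := by
      apply ck_eq k l s a (c l) (c k) _ heq
      intro t
      have := (le_abs_self _).trans (kernel_all hc k l hk hkl t a)
      rw [h0] at this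
      exact this
    refine ⟨c, hc, h0, hck, ?_⟩
    rw [VV_eq, ← hck]
    linarith
  · rintro x ⟨c, hc, h0, hck, hl⟩
    have := (le_abs_self _).trans (kernel_all hc k l hk hkl s a)
    rw [h0, hck, hl] at this
    rw [VV_eq]
    linarith

theorem aeval_pp {k l : ℕ} (s a : ℝ) (z : ℂ) : aeval z (pp k l s a)
    = ∑ i ∈ Finset.range (MM k l), ((gam i * s ^ i : ℝ) : ℂ) * z ^ (i * (l - k)) + a * z ^ l := by
  unfold pp SS
  rw [map_add, map_sum, map_sum]
  congr 1
  · apply Finset.sum_congr rfl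
    intro i _
    rw [map_mul, expand_C, map_pow, expand_X, ← pow_mul, map_mul, map_pow, aeval_C, aeval_X,
      mul_comm (l - k) i]
    rfl
  · rw [map_mul, map_pow, aeval_C, aeval_X]; rfl

theorem zero_free_all (k l : ℕ) (s a : ℝ)
    (h : |a| + ∑ i ∈ Finset.Ico 1 (MM k l), |gam i * s ^ i| < 1) (z : ℂ) (hz : ‖z‖ ≤ 1) :
    aeval z (pp k l s a) ≠ 0 := by
  rw [aeval_pp, Finset.range_eq_Ico, Finset.sum_eq_sum_Ico_succ_bot (MM_pos k l)]
  intro h0
  have hg : ((gam 0 * s ^ 0 : ℝ) : ℂ) * z ^ (0 * (l - k)) = 1 := by simp [gam]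
  rw [hg] at h0
  have h1 : (1 : ℂ) = -(∑ i ∈ Finset.Ico (0 + 1) (MM k l), ((gam i * s ^ i : ℝ) : ℂ)
      * z ^ (i * (l - k))) - a * z ^ l := by linear_combination h0
  have h2 : (1 : ℝ) ≤ ∑ i ∈ Finset.Ico (0 + 1) (MM k l), |gam i * s ^ i| + |a| := by
    calc (1 : ℝ) = ‖(1 : ℂ)‖ := by simp
      _ ≤ ‖∑ i ∈ Finset.Ico (0 + 1) (MM k l), ((gam i * s ^ i : ℝ) : ℂ) * z ^ (i * (l - k))‖
          + ‖a * z ^ l‖ := by
          rw [h1]
          refine (norm_sub_le _ _).trans ?_
          rw [norm_neg]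
      _ ≤ ∑ i ∈ Finset.Ico (0 + 1) (MM k l), |gam i * s ^ i| + |a| := by
          apply add_le_add
          · refine (norm_sum_le _ _).trans ?_
            apply Finset.sum_le_sum
            intro i _
            rw [norm_mul, norm_pow, Complex.norm_real, Real.norm_eq_abs]
            exact mul_le_of_le_one_right (abs_nonneg _) (pow_le_one₀ (norm_nonneg _) hz)
          · rw [norm_mul, norm_pow, Complex.norm_real, Real.norm_eq_abs]
            exact mul_le_of_le_one_right (abs_nonneg _) (pow_le_one₀ (norm_nonneg _) hz)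
  rw [zero_add] at h2
  linarith

end

end Pool.Agent.H156.Schur
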