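import Mathlib
import Pool.Agent.H156.Schur

namespace Pool.Agent.H156.Schur

open Polynomial MeasureTheory

noncomputable section

theorem coeff_six (c : ℕ → ℝ) (r0 r1 r2 r3 r4 r5 : ℝ) (m0 m1 m2 m3 m4 m5 L : ℕ) :
    PowerSeries.coeff L (PowerSeries.mk c * ((C r0 * X ^ m0 + C r1 * X ^ m1 + C r2 * X ^ m2
      + C r3 * X ^ m3 + C r4 * X ^ m4 + C r5 * X ^ m5 : ℝ[X]) : PowerSeries ℝ))
      = (if m0 ≤ L then r0 * c (L - m0) else 0) + (if m1 ≤ L then r1 * c (L - m1) else 0)
      + (if m2 ≤ L then r2 * c (L - m2) else 0) + (if m3 ≤ L then r3 * c (L - m3) else 0)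
      + (if m4 ≤ L then r4 * c (L - m4) else 0) + (if m5 ≤ L then r5 * c (L - m5) else 0) := by
  simp only [Polynomial.coe_add, mul_add, map_add, coeff_term]

theorem integral_four (A0 A1 A2 A3 : ℝ) (k : ℕ) (hk : 0 < k) :
    ∫ θ in (0:ℝ)..2 * Real.pi, (A0 + A1 * Real.cos (k * θ) + A2 * Real.cos ((2 * k : ℕ) * θ)
      + A3 * Real.cos ((3 * k : ℕ) * θ)) = 2 * Real.pi * A0 := by
  rw [intervalIntegral.integral_add, intervalIntegral.integral_add, intervalIntegral.integral_add,
    intervalIntegral.integral_const_mul, intervalIntegral.integral_const_mul,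
    intervalIntegral.integral_const_mul, integral_cos_nat _ hk,
    integral_cos_nat _ (by omega), integral_cos_nat _ (by omega)]
  · simp
  all_goals
    apply Continuous.intervalIntegrable
    fun_prop

theorem kernel_three {c : ℕ → ℝ} (hc : c ∈ HR) (k : ℕ) (hk : 0 < k) (σ α β : ℝ)
    (hσ : σ = 1 ∨ σ = -1) (hα : 1 ≤ -(σ * α)) :
    |c (3 * k) + (1 + 2 * β - 3 * α ^ 2) * c k
      + (2 * α * β - 2 * α * (α ^ 2 + 2 * β) + 2 * α) * c 0|
      ≤ σ * (2 * α * (1 + β) - 2 * α * (1 + α ^ 2 + β ^ 2)) := by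
  obtain ⟨-, P, Q, hQ, hP, he⟩ := hc
  set G : ℝ[X] := (1 + C α * X ^ k + C β * X ^ (2 * k)) ^ 2 * (1 - C (2 * α) * X ^ k + X ^ (2 * k))
    with hG
  have hb := coeff_bound hQ hP he G (3 * k)
  have hexp : G = C 1 * X ^ 0 + C (1 + 2 * β - 3 * α ^ 2) * X ^ (2 * k)
      + C (2 * α * β - 2 * α * (α ^ 2 + 2 * β) + 2 * α) * X ^ (3 * k)
      + C (β ^ 2 - 4 * α ^ 2 * β + α ^ 2 + 2 * β) * X ^ (4 * k)
      + C (2 * α * β - 2 * α * β ^ 2) * X ^ (5 * k) + C (β ^ 2) * X ^ (6 * k) := by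
    rw [hG]
    simp only [map_mul, map_pow, map_one, map_add, map_sub, pow_mul', map_ofNat]
    ring
  have hco : PowerSeries.coeff (3 * k) (PowerSeries.mk c * (G : PowerSeries ℝ))
      = c (3 * k) + (1 + 2 * β - 3 * α ^ 2) * c k
      + (2 * α * β - 2 * α * (α ^ 2 + 2 * β) + 2 * α) * c 0 := by
    rw [hexp, coeff_six]
    rw [if_pos (Nat.zero_le _), if_pos (by omega), if_pos le_rfl, if_neg (by omega),
      if_neg (by omega), if_neg (by omega)]
    have h1 : 3 * k - 2 * k = k := by omega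
    rw [h1, Nat.sub_self, Nat.sub_zero]
    ring
  rw [hco] at hb
  have hint : ∫ θ in (0:ℝ)..2 * Real.pi, ‖aeval (circleMap 0 1 θ) G‖
      = 2 * Real.pi * (σ * (2 * α * (1 + β) - 2 * α * (1 + α ^ 2 + β ^ 2))) := by
    have hpt : ∀ θ : ℝ, ‖aeval (circleMap 0 1 θ) G‖
        = σ * (2 * α * (1 + β) - 2 * α * (1 + α ^ 2 + β ^ 2))
          + σ * (2 * (1 + α ^ 2 + β ^ 2) + 2 * β - 4 * α ^ 2 * (1 + β)) * Real.cos (k * θ)
          + σ * (2 * α * (1 + β) - 4 * α * β) * Real.cos ((2 * k : ℕ) * θ)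
          + σ * (2 * β) * Real.cos ((3 * k : ℕ) * θ) := by
      intro θ
      have hw : (circleMap 0 1 θ) ^ k = ⟨Real.cos (k * θ), Real.sin (k * θ)⟩ := circle_pow θ k
      have c2 : Real.cos ((2 * k : ℕ) * θ) = 2 * Real.cos (k * θ) ^ 2 - 1 := by
        rw [← Real.cos_two_mul]; congr 1; push_cast; ring
      have c3 : Real.cos ((3 * k : ℕ) * θ) = 4 * Real.cos (k * θ) ^ 3 - 3 * Real.cos (k * θ) := by
        rw [← Real.cos_three_mul]; congr 1; push_cast; ring
      rw [c2, c3]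
      have hcs := Real.sin_sq_add_cos_sq (k * θ)
      have hcle : Real.cos (k * θ) ≤ 1 := Real.cos_le_one _
      have hcge : -1 ≤ Real.cos (k * θ) := Real.neg_one_le_cos _
      set x := Real.cos (k * θ) with hx
      set y := Real.sin (k * θ) with hy
      have hae : aeval (circleMap 0 1 θ) G = (1 + α * (⟨x, y⟩ : ℂ) + β * (⟨x, y⟩ : ℂ) ^ 2) ^ 2
          * ((⟨x, y⟩ : ℂ) * (((2 * x - 2 * α : ℝ)) : ℂ)) := by
        have h1 : aeval (circleMap 0 1 θ) G = (1 + α * (⟨x, y⟩ : ℂ) + β * (⟨x, y⟩ : ℂ) ^ 2) ^ 2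
          * (1 - 2 * α * (⟨x, y⟩ : ℂ) + (⟨x, y⟩ : ℂ) ^ 2) := by
          rw [hG, ← hw]
          simp [pow_mul']
        rw [h1]
        congr 1
        apply Complex.ext
        · simp [pow_two]
          nlinarith [hcs]
        · simp [pow_two]
          ring
      rw [hae, norm_mul, norm_mul, norm_pow, ← Complex.normSq_eq_norm_sq]
      have hn1 : ‖(⟨x, y⟩ : ℂ)‖ = 1 := by
        rw [← hw, norm_pow]; simp
      have hn2 : ‖(((2 * x - 2 * α : ℝ)) : ℂ)‖ = σ * (2 * x - 2 * α) := by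
        rw [Complex.norm_real, Real.norm_eq_abs]
        rcases hσ with h | h
        · rw [h] at hα ⊢
          rw [abs_of_nonneg (by linarith)]; ring
        · rw [h] at hα ⊢
          rw [abs_of_nonpos (by linarith)]; ring
      have hn3 : Complex.normSq (1 + α * (⟨x, y⟩ : ℂ) + β * (⟨x, y⟩ : ℂ) ^ 2)
          = 1 + α ^ 2 + β ^ 2 + 2 * α * (1 + β) * x + 2 * β * (2 * x ^ 2 - 1) := by
        rw [Complex.normSq_apply]
        simp only [Complex.add_re, Complex.add_im, Complex.one_re, Complex.one_im, Complex.mul_re,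
          Complex.mul_im, Complex.ofReal_re, Complex.ofReal_im, zero_mul, sub_zero, add_zero,
          zero_add, pow_two]
        have hy2 : y ^ 2 = 1 - x ^ 2 := by linarith
        have hy4 : y ^ 4 = (1 - x ^ 2) ^ 2 := by rw [← hy2]; ring
        linear_combination (α ^ 2 + 2 * α * β * x + 2 * β ^ 2 * x ^ 2 - 2 * β) * hy2 + β ^ 2 * hy4
      rw [hn1, hn2, hn3]
      ring
    rw [intervalIntegral.integral_congr (g := fun θ =>
        σ * (2 * α * (1 + β) - 2 * α * (1 + α ^ 2 + β ^ 2))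
          + σ * (2 * (1 + α ^ 2 + β ^ 2) + 2 * β - 4 * α ^ 2 * (1 + β)) * Real.cos (k * θ)
          + σ * (2 * α * (1 + β) - 4 * α * β) * Real.cos ((2 * k : ℕ) * θ)
          + σ * (2 * β) * Real.cos ((3 * k : ℕ) * θ)) (fun θ _ => hpt θ)]
    exact integral_four _ _ _ _ k hk
  rw [hint] at hb
  exact le_of_mul_le_mul_left hb Real.two_pi_pos

theorem upper_two {c : ℕ → ℝ} (hc : c ∈ HR) (k : ℕ) (hk : 0 < k) (a b : ℝ) (h0 : c 0 = a)
    (hkb : c k = b) (ha : |a| < 1) (hb : b ≤ -(1 - |a|)) :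
    c (3 * k) ≤ b * (b ^ 2 / (1 - |a|) ^ 2 - 1 - 2 * |a|) := by
  obtain ⟨σ, hσ, hσa⟩ : ∃ σ : ℝ, (σ = 1 ∨ σ = -1) ∧ a = σ * |a| := by
    rcases le_or_gt 0 a with h | h
    · exact ⟨1, Or.inl rfl, by rw [abs_of_nonneg h, one_mul]⟩
    · exact ⟨-1, Or.inr rfl, by rw [abs_of_neg h]; ring⟩
  set β := |a| with hβ
  have hpos : 0 < 1 - β := by linarith
  set t := b / (1 - β) with ht
  have hbt : b = t * (1 - β) := by rw [ht]; field_simp
  have ht1 : t ≤ -1 := by
    rw [ht, div_le_iff₀ hpos]; linarith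
  have hσ2 : σ * σ = 1 := by rcases hσ with h | h <;> rw [h] <;> norm_num
  have key := kernel_three hc k hk σ (σ * t) β hσ (by rw [← mul_assoc, hσ2]; linarith)
  have key2 := (le_abs_self _).trans key
  rw [h0, hkb, hσa] at key2
  have e : b ^ 2 / (1 - β) ^ 2 = t ^ 2 := by rw [ht, div_pow]
  rw [e]
  rw [hbt] at key2 ⊢
  rcases hσ with h | h
  · rw [h] at key2
    nlinarith [key2]
  · rw [h] at key2
    nlinarith [key2]

/-- One Schur step. -/
theorem step (c : ℝ) (hc : |c| < 1) (w D N : ℂ) (hw : ‖w‖ ≤ 1) (hN : ‖N‖ ≤ ‖D‖) (hD : D ≠ 0) :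
    D + c * (w * N) ≠ 0 ∧ ‖c * D + w * N‖ ≤ ‖D + c * (w * N)‖ := by
  have hv : ‖w * N‖ ≤ ‖D‖ := by
    rw [norm_mul]
    calc ‖w‖ * ‖N‖ ≤ 1 * ‖N‖ := mul_le_mul_of_nonneg_right hw (norm_nonneg _)
      _ ≤ ‖D‖ := by rw [one_mul]; exact hN
  set v := w * N with hvdef
  have hDpos : 0 < ‖D‖ := norm_pos_iff.mpr hD
  constructor
  · intro h
    have h1 : D = -(c * v) := by linear_combination h
    have h2 : ‖D‖ = |c| * ‖v‖ := by
      conv_lhs => rw [h1]
      rw [norm_neg, norm_mul]; simp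
    have h3 : |c| * ‖v‖ ≤ |c| * ‖D‖ := mul_le_mul_of_nonneg_left hv (abs_nonneg _)
    nlinarith
  · have h1 : Complex.normSq (c * D + v) ≤ Complex.normSq (D + c * v) := by
      have e : Complex.normSq (D + c * v) - Complex.normSq (c * D + v)
          = (1 - c ^ 2) * (Complex.normSq D - Complex.normSq v) := by
        simp only [Complex.normSq_apply, Complex.add_re, Complex.add_im, Complex.mul_re,
          Complex.mul_im, Complex.ofReal_re, Complex.ofReal_im, zero_mul, sub_zero, add_zero]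
        ring
      have h2 : Complex.normSq v ≤ Complex.normSq D := by
        rw [Complex.normSq_eq_norm_sq, Complex.normSq_eq_norm_sq]
        exact pow_le_pow_left₀ (norm_nonneg _) hv 2
      have h3 : 0 ≤ 1 - c ^ 2 := by
        have : c ^ 2 < 1 := by rw [← sq_abs]; nlinarith [abs_nonneg c]
        linarith
      have := mul_nonneg h3 (sub_nonneg.mpr h2)
      linarith
    rw [Complex.normSq_eq_norm_sq, Complex.normSq_eq_norm_sq] at h1
    exact (pow_le_pow_iff_left₀ (norm_nonneg _) (norm_nonneg _) two_ne_zero).mp h1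

theorem quad_zero_free (α β : ℝ) (hβ : |β| < 1) (hα : |α| < 1 + β) (w : ℂ) (hw : ‖w‖ ≤ 1) :
    1 + α * w + β * w ^ 2 ≠ 0 ∧ ‖β + α * w + w ^ 2‖ ≤ ‖1 + α * w + β * w ^ 2‖ := by
  have hpos : 0 < 1 + β := lt_of_le_of_lt (abs_nonneg _) hα
  set γ := α / (1 + β) with hγ
  have hα' : α = γ * (1 + β) := by rw [hγ]; field_simp
  have hγ1 : |γ| < 1 := by
    rw [hγ, abs_div, abs_of_pos hpos, div_lt_one hpos]; exact hα
  have s1 := step γ hγ1 w 1 1 hw le_rfl one_ne_zero
  have s2 := step β hβ w _ _ hw s1.2 s1.1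
  have e1 : (1 + γ * (w * 1) : ℂ) + β * (w * (γ * 1 + w * 1)) = 1 + α * w + β * w ^ 2 := by
    rw [hα']; push_cast; ring
  have e2 : (β : ℂ) * (1 + γ * (w * 1)) + w * (γ * 1 + w * 1) = β + α * w + w ^ 2 := by
    rw [hα']; push_cast; ring
  rw [e1, e2] at s2
  exact s2

theorem cubic_zero_free (a b : ℝ) (ha : |a| < 1) (hb : |b| < 1 - a ^ 2) (hb2 : -(1 - |a|) < b)
    (w : ℂ) (hw : ‖w‖ ≤ 1) : 1 + b * w ^ 2 + a * w ^ 3 ≠ 0 := by
  have ha2 : 0 < 1 - a ^ 2 := lt_of_le_of_lt (abs_nonneg _) hb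
  set β := b / (1 - a ^ 2) with hβ
  have hb' : b = β * (1 - a ^ 2) := by rw [hβ]; field_simp
  have hβ1 : |β| < 1 := by
    rw [hβ, abs_div, abs_of_pos ha2, div_lt_one ha2]; exact hb
  have hα : |-(a * β)| < 1 + β := by
    rw [abs_neg, abs_mul]
    rcases le_or_gt 0 β with h | h
    · rw [abs_of_nonneg h]
      nlinarith [abs_nonneg a]
    · rw [abs_of_neg h]
      have h1 : a ^ 2 = |a| ^ 2 := (sq_abs a).symm
      have h2 : -(1 - |a|) < β * ((1 - |a|) * (1 + |a|)) := by
        have : β * ((1 - |a|) * (1 + |a|)) = b := by rw [hb', h1]; ring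
        rw [this]; exact hb2
      have h3 : 0 < 1 - |a| := by linarith
      have h4 : (1 - |a|) * (-1) < (1 - |a|) * (β * (1 + |a|)) := by nlinarith
      have h5 := lt_of_mul_lt_mul_left h4 h3.le
      nlinarith
  have q := quad_zero_free (-(a * β)) β hβ1 hα w hw
  have s := step a ha w _ _ hw q.2 q.1
  have e : (1 + ((-(a * β) : ℝ) : ℂ) * w + β * w ^ 2)
      + a * (w * (β + ((-(a * β) : ℝ) : ℂ) * w + w ^ 2)) = 1 + b * w ^ 2 + a * w ^ 3 := by
    rw [hb']; push_cast; ring
  rw [e] at s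
  exact s.1

theorem extremal_two (σ α β : ℝ) (hσ : σ = 1 ∨ σ = -1) (hβ : |β| < 1) (hα : |α| < 1 + β)
    (hα0 : α ≠ 0) (k : ℕ) (hk : 0 < k) :
    ∃ c ∈ HR, c 0 = σ * β ∧ c k = σ * α * (1 - β) ∧
      c (3 * k) = σ * α * (1 - β) * (α ^ 2 - 1 - 2 * β) := by
  set D : ℝ[X] := C 1 * X ^ 0 + C α * X ^ k + C β * X ^ (2 * k) with hD
  set N : ℝ[X] := C (σ * β) * X ^ 0 + C (σ * α) * X ^ k + C σ * X ^ (2 * k) with hN
  have hD0 : D.coeff 0 = 1 := by
    rw [hD]
    simp only [coeff_add, coeff_C_mul, coeff_X_pow]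
    rw [if_pos trivial, if_neg (by omega), if_neg (by omega)]; ring
  obtain ⟨c, hc⟩ := exists_seq N D hD0
  have hrec : ∀ n, c n + (if k ≤ n then α * c (n - k) else 0)
      + (if 2 * k ≤ n then β * c (n - 2 * k) else 0) = N.coeff n := by
    intro n
    have := congrArg (PowerSeries.coeff n) hc
    rw [mul_comm, hD] at this
    simp only [Polynomial.coe_add, mul_add, map_add, coeff_term] at this
    rw [if_pos (Nat.zero_le _), Polynomial.coeff_coe, Nat.sub_zero, one_mul] at this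
    exact this
  have hNc : ∀ n, N.coeff n = (if n = 0 then σ * β else 0) + (if n = k then σ * α else 0)
      + (if n = 2 * k then σ else 0) := by
    intro n
    rw [hN]
    simp only [coeff_add, coeff_C_mul, coeff_X_pow, mul_ite, mul_one, mul_zero]
  have h0 : c 0 = σ * β := by
    have := hrec 0
    rw [hNc, if_neg (by omega), if_neg (by omega), if_pos rfl, if_neg (by omega),
      if_neg (by omega)] at this
    linarith
  have h1 : c k = σ * α * (1 - β) := by
    have := hrec k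
    rw [hNc, if_pos le_rfl, if_neg (by omega), if_neg (by omega), if_pos rfl,
      if_neg (by omega), Nat.sub_self, h0] at this
    linarith
  have h2 : c (2 * k) = σ - α * (σ * α * (1 - β)) - β * (σ * β) := by
    have := hrec (2 * k)
    have e1 : 2 * k - k = k := by omega
    rw [hNc, if_pos (by omega), if_pos le_rfl, if_neg (by omega), if_neg (by omega),
      if_pos rfl, e1, Nat.sub_self, h0, h1] at this
    linarith
  have h3 : c (3 * k) = σ * α * (1 - β) * (α ^ 2 - 1 - 2 * β) := by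
    have := hrec (3 * k)
    have e1 : 3 * k - k = 2 * k := by omega
    have e2 : 3 * k - 2 * k = k := by omega
    rw [hNc, if_pos (by omega), if_pos (by omega), if_neg (by omega), if_neg (by omega),
      if_neg (by omega), e1, e2, h1, h2] at this
    linear_combination this
  have hβ1 : β < 1 := (abs_lt.mp hβ).2
  refine ⟨c, mem_HR_of N D ?_ ?_ hc ⟨k, hk, ?_⟩, h0, h1, h3⟩
  · intro z hz1
    have hw : ‖z ^ k‖ ≤ 1 := by rw [norm_pow]; exact pow_le_one₀ (norm_nonneg _) hz1
    have := (quad_zero_free α β hβ hα (z ^ k) hw).1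
    rw [hD]
    simpa [pow_mul'] using this
  · intro z hz1
    have h1 := norm_reverse β α k (2 * k) (by omega) z hz1
    have h2 : 2 * k - k = k := by omega
    rw [h2] at h1
    have hNz : aeval z N = σ * ((β : ℂ) + α * z ^ k + z ^ (2 * k)) := by
      rw [hN]; simp; ring
    have hDz : aeval z D = 1 + α * z ^ k + β * z ^ (2 * k) := by
      rw [hD]; simp
    have hσn : ‖(σ : ℂ)‖ = 1 := by
      rcases hσ with h | h <;> rw [h] <;> simp
    rw [hNz, hDz, norm_mul, hσn, one_mul, h1]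
  · rw [h1]
    have : σ ≠ 0 := by rcases hσ with h | h <;> rw [h] <;> norm_num
    exact mul_ne_zero (mul_ne_zero this hα0) (by linarith)

theorem extremal_edge (a ε : ℝ) (hε : ε = 1 ∨ ε = -1) (ha : |a| < 1) (k : ℕ) (hk : 0 < k) :
    ∃ c ∈ HR, c 0 = a ∧ c k = ε * (1 - a ^ 2) ∧ c (3 * k) = a ^ 2 * (ε * (1 - a ^ 2)) := by
  have hε2 : ε * ε = 1 := by rcases hε with h | h <;> rw [h] <;> norm_num
  have hε1 : |ε| = 1 := by rcases hε with h | h <;> rw [h] <;> simp
  set D : ℝ[X] := C 1 * X ^ 0 + C (ε * a) * X ^ k with hD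
  set N : ℝ[X] := C a * X ^ 0 + C ε * X ^ k with hN
  have hD0 : D.coeff 0 = 1 := by
    rw [hD]
    simp only [coeff_add, coeff_C_mul, coeff_X_pow]
    rw [if_pos trivial, if_neg (by omega)]; ring
  obtain ⟨c, hc⟩ := exists_seq N D hD0
  have hrec : ∀ n, c n + (if k ≤ n then ε * a * c (n - k) else 0) = N.coeff n := by
    intro n
    have := congrArg (PowerSeries.coeff n) hc
    rw [mul_comm, hD] at this
    simp only [Polynomial.coe_add, mul_add, map_add, coeff_term] at this
    rw [if_pos (Nat.zero_le _), Polynomial.coeff_coe, Nat.sub_zero, one_mul] at this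
    exact this
  have hNc : ∀ n, N.coeff n = (if n = 0 then a else 0) + (if n = k then ε else 0) := by
    intro n
    rw [hN]
    simp only [coeff_add, coeff_C_mul, coeff_X_pow, mul_ite, mul_one, mul_zero]
  have h0 : c 0 = a := by
    have := hrec 0
    rw [hNc, if_neg (by omega), if_pos rfl, if_neg (by omega)] at this
    linarith
  have h1 : c k = ε * (1 - a ^ 2) := by
    have := hrec k
    rw [hNc, if_pos le_rfl, if_neg (by omega), if_pos rfl, Nat.sub_self, h0] at this
    linarith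
  have h2 : c (2 * k) = - (ε * a * (ε * (1 - a ^ 2))) := by
    have := hrec (2 * k)
    have e1 : 2 * k - k = k := by omega
    rw [hNc, if_pos (by omega), if_neg (by omega), if_neg (by omega), e1, h1] at this
    linarith
  have h3 : c (3 * k) = a ^ 2 * (ε * (1 - a ^ 2)) := by
    have := hrec (3 * k)
    have e1 : 3 * k - k = 2 * k := by omega
    rw [hNc, if_pos (by omega), if_neg (by omega), if_neg (by omega), e1, h2] at this
    linear_combination this + (a ^ 2 * (ε * (1 - a ^ 2))) * hε2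
  have ha2 : 0 < 1 - a ^ 2 := by
    have : a ^ 2 < 1 := by rw [← sq_abs]; nlinarith [abs_nonneg a]
    linarith
  refine ⟨c, mem_HR_of N D ?_ ?_ hc ⟨k, hk, ?_⟩, h0, h1, h3⟩
  · intro z hz1
    have hw : ‖z ^ k‖ ≤ 1 := by rw [norm_pow]; exact pow_le_one₀ (norm_nonneg _) hz1
    have hea : |ε * a| < 1 := by rw [abs_mul, hε1, one_mul]; exact ha
    have := (step (ε * a) hea (z ^ k) 1 1 hw le_rfl one_ne_zero).1
    rw [hD]
    simpa using this
  · intro z hz1
    have h1 := norm_reverse (ε * a) 0 k k le_rfl z hz1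
    have hNz : aeval z N = ε * (((ε * a : ℝ) : ℂ) + z ^ k) := by
      rw [hN]
      have : (a : ℂ) = ε * ((ε * a : ℝ) : ℂ) := by
        push_cast; rw [← mul_assoc, ← Complex.ofReal_mul, hε2]; simp
      simp only [map_add, map_mul, map_pow, aeval_C, aeval_X, pow_zero, mul_one,
        Complex.coe_algebraMap]
      conv_lhs => rw [this]
      ring
    have hDz : aeval z D = 1 + ((ε * a : ℝ) : ℂ) * z ^ k := by
      rw [hD]; simp
    have hεn : ‖(ε : ℂ)‖ = 1 := by
      rw [Complex.norm_real, Real.norm_eq_abs, hε1]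
    rw [hNz, hDz, norm_mul, hεn, one_mul]
    simpa using h1
  · rw [h1]
    have : ε ≠ 0 := by rcases hε with h | h <;> rw [h] <;> norm_num
    exact mul_ne_zero this ha2.ne'

/-- The extremal value for `l = 3k`. -/
def U3 (a b : ℝ) : ℝ :=
  if -(1 - |a|) ≤ b then 1 - a ^ 2 - b ^ 2 else b * (b ^ 2 / (1 - |a|) ^ 2 - 1 - 2 * |a|)

theorem U3_edge (a ε : ℝ) (hε : ε = 1 ∨ ε = -1) (ha : |a| < 1) :
    U3 a (ε * (1 - a ^ 2)) = a ^ 2 * (ε * (1 - a ^ 2)) := by
  have hε2 : ε * ε = 1 := by rcases hε with h | h <;> rw [h] <;> norm_num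
  have hsq : a ^ 2 = |a| ^ 2 := (sq_abs a).symm
  have hnn := abs_nonneg a
  unfold U3
  split_ifs with h
  · rcases hε with h1 | h1
    · rw [h1]; ring
    · rw [h1] at h ⊢
      have h2 : |a| ≤ a ^ 2 := by linarith
      rw [hsq] at h2
      have h3 : |a| = 0 := by nlinarith
      have h4 : a = 0 := abs_eq_zero.mp h3
      rw [h4]; ring
  · rcases hε with h1 | h1
    · exfalso; apply h
      rw [h1, hsq]; nlinarith
    · rw [h1]
      have h3 : 0 < 1 - |a| := by linarith
      have e : (-1 * (1 - a ^ 2)) ^ 2 / (1 - |a|) ^ 2 = (1 + |a|) ^ 2 := by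
        rw [hsq]; field_simp; ring
      rw [e, hsq]; ring

theorem greatest_three (a b : ℝ) (k : ℕ) (hk : 0 < k) (ha : |a| < 1) (hb : |b| ≤ 1 - a ^ 2) :
    IsGreatest (vals k (3 * k) a b) (U3 a b) := by
  constructor
  · rcases hb.lt_or_eq with hlt | heq
    · rcases lt_or_ge (-(1 - |a|)) b with h | h
      · have hz : ∀ z : ℂ, ‖z‖ ≤ 1 → 1 + b * z ^ (3 * k - k) + a * z ^ (3 * k) ≠ 0 := by
          intro z hz1
          have hw : ‖z ^ k‖ ≤ 1 := by rw [norm_pow]; exact pow_le_one₀ (norm_nonneg _) hz1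
          have := cubic_zero_free a b ha hlt h (z ^ k) hw
          have e1 : 3 * k - k = 2 * k := by omega
          rw [e1, pow_mul', pow_mul']
          exact this
        have := (greatest_one a b k (3 * k) hk (by omega) ha hz).1
        unfold U3
        rw [if_pos h.le]
        exact this
      · obtain ⟨σ, hσ, hσa⟩ : ∃ σ : ℝ, (σ = 1 ∨ σ = -1) ∧ a = σ * |a| := by
          rcases le_or_gt 0 a with h | h
          · exact ⟨1, Or.inl rfl, by rw [abs_of_nonneg h, one_mul]⟩
          · exact ⟨-1, Or.inr rfl, by rw [abs_of_neg h]; ring⟩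
        have hσ2 : σ * σ = 1 := by rcases hσ with h | h <;> rw [h] <;> norm_num
        have hsq : a ^ 2 = |a| ^ 2 := (sq_abs a).symm
        have hpos : 0 < 1 - |a| := by linarith
        have hbneg : b < 0 := by linarith
        set t := b / (1 - |a|) with ht
        have hbt : b = t * (1 - |a|) := by rw [ht]; field_simp
        have ht1 : t ≤ -1 := by rw [ht, div_le_iff₀ hpos]; linarith
        have ht2 : -(1 + |a|) < t := by
          rw [ht, lt_div_iff₀ hpos]
          rw [abs_of_neg hbneg, hsq] at hlt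
          nlinarith
        have hα : |σ * t| < 1 + |a| := by
          rw [abs_mul]
          have : |σ| = 1 := by rcases hσ with h | h <;> rw [h] <;> simp
          rw [this, one_mul, abs_of_neg (by linarith)]
          linarith
        have hα0 : σ * t ≠ 0 := by
          apply mul_ne_zero
          · rcases hσ with h | h <;> rw [h] <;> norm_num
          · linarith
        obtain ⟨c, hc, h0, h1, h3⟩ := extremal_two σ (σ * t) |a| hσ (by rwa [abs_abs]) hα hα0 k hk
        refine ⟨c, hc, h0.trans hσa.symm, ?_, ?_⟩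
        · rw [h1, ← mul_assoc, hσ2, one_mul, ← hbt]
        · rw [h3]
          have e1 : σ * (σ * t) * (1 - |a|) = b := by rw [← mul_assoc, hσ2, one_mul, ← hbt]
          have e2 : (σ * t) ^ 2 = t ^ 2 := by
            rw [mul_pow, pow_two σ, hσ2, one_mul]
          have e3 : t ^ 2 = b ^ 2 / (1 - |a|) ^ 2 := by rw [ht, div_pow]
          rw [e1, e2]
          unfold U3
          split_ifs with hif
          · have hbe : b = -(1 - |a|) := le_antisymm h hif
            have hte : t = -1 := by rw [ht, hbe]; field_simp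
            rw [hte, hbe, hsq]; ring
          · rw [e3]
    · obtain ⟨ε, hε, hbε⟩ : ∃ ε : ℝ, (ε = 1 ∨ ε = -1) ∧ b = ε * (1 - a ^ 2) := by
        rcases le_or_gt 0 b with h | h
        · exact ⟨1, Or.inl rfl, by rw [← heq, abs_of_nonneg h, one_mul]⟩
        · exact ⟨-1, Or.inr rfl, by rw [← heq, abs_of_neg h]; ring⟩
      obtain ⟨c, hc, h0, h1, h3⟩ := extremal_edge a ε hε ha k hk
      refine ⟨c, hc, h0, h1.trans hbε.symm, ?_⟩
      rw [h3, hbε, U3_edge a ε hε ha]
  · rintro x ⟨c, hc, h0, h1, h3⟩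
    unfold U3
    split_ifs with h
    · have := universal_bound hc k (3 * k) hk (by omega)
      rw [h0, h1, h3] at this
      exact (le_abs_self x).trans this
    · rw [← h3]
      exact upper_two hc k hk a b h0 h1 ha (by push Not at h; exact h.le)

theorem least_three (a b : ℝ) (k : ℕ) (hk : 0 < k) (ha : |a| < 1) (hb : |b| ≤ 1 - a ^ 2) :
    IsLeast (vals k (3 * k) a b) (-(U3 a (-b))) := by
  apply isLeast_of_isGreatest_neg
  have h := greatest_three (-a) (-b) k hk (by rwa [abs_neg]) (by rw [abs_neg, neg_sq]; exact hb)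
  have e : U3 (-a) (-b) = U3 a (-b) := by
    unfold U3; rw [abs_neg, neg_sq a]
  rwa [e] at h

end

end Pool.Agent.H156.Schur
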