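import Mathlib

/-!
# Universal partial cycles with period four

For every `k ≥ 2` we construct a cyclic partial word over a four letter alphabet, with wildcards
exactly at the positions divisible by `4`, in which every word of length `4 k` is covered by
exactly one window.
-/

set_option autoImplicit false

namespace Pool.Agent.H156.Upcycle

open Equiv

/-! ## Merging the cycles of a permutation -/

section Merge

variable {E : Type*} [Fintype E]

theorem mem_of_sameCycle {σ : Perm E} {S : Set E} (h : ∀ x ∈ S, σ x ∈ S) {x y : E} (hx : x ∈ S)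
    (hxy : σ.SameCycle x y) : y ∈ S := by
  obtain ⟨n, rfl⟩ := hxy.exists_nat_pow_eq
  clear hxy
  induction n with
  | zero => simpa using hx
  | succ n ih =>
    rw [pow_succ', Perm.mul_apply]
    exact h _ ih

theorem merge [DecidableEq E] (σ : Perm E) {e0 e e' : E} (he : σ.SameCycle e0 e)
    (he' : ¬ σ.SameCycle e0 e') (y : E) (hy : σ.SameCycle e0 y ∨ y = e') :
    (σ * swap e e').SameCycle e0 y := by
  set τ : Perm E := σ * swap e e' with hτ
  have hτe : τ e = σ e' := by rw [hτ, Perm.mul_apply, swap_apply_left]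
  have hτe' : τ e' = σ e := by rw [hτ, Perm.mul_apply, swap_apply_right]
  have hτx : ∀ x, x ≠ e → x ≠ e' → τ x = σ x := by
    intro x h1 h2
    rw [hτ, Perm.mul_apply, swap_apply_of_ne_of_ne h1 h2]
  have hne : ∀ x, σ.SameCycle e' x → x ≠ e := by
    rintro x hx rfl
    exact he' (he.trans hx.symm)
  -- `e'` is in the orbit of `e`
  have key : τ.SameCycle e e' := by
    by_contra hcon
    have hcl : ∀ x ∈ {x | τ.SameCycle e x ∧ σ.SameCycle e' x},
        σ x ∈ {x | τ.SameCycle e x ∧ σ.SameCycle e' x} := by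
      rintro x ⟨h1, h2⟩
      have hxe' : x ≠ e' := by
        rintro rfl
        exact hcon h1
      refine ⟨?_, Perm.sameCycle_apply_right.mpr h2⟩
      rw [← hτx x (hne x h2) hxe']
      exact Perm.sameCycle_apply_right.mpr h1
    have hst : σ e' ∈ {x | τ.SameCycle e x ∧ σ.SameCycle e' x} := by
      refine ⟨?_, Perm.sameCycle_apply_right.mpr (Perm.SameCycle.refl _ _)⟩
      rw [← hτe]
      exact Perm.sameCycle_apply_right.mpr (Perm.SameCycle.refl _ _)
    have := mem_of_sameCycle hcl hst (y := e')
      (Perm.sameCycle_apply_left.mpr (Perm.SameCycle.refl _ _))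
    exact hcon this.1
  -- the orbit of `e0` is contained in the orbit of `e`
  have hsub : ∀ x, σ.SameCycle e0 x → τ.SameCycle e x := by
    have hcl : ∀ x ∈ {x | τ.SameCycle e x ∧ σ.SameCycle e0 x},
        σ x ∈ {x | τ.SameCycle e x ∧ σ.SameCycle e0 x} := by
      rintro x ⟨h1, h2⟩
      refine ⟨?_, Perm.sameCycle_apply_right.mpr h2⟩
      by_cases hxe : x = e
      · rw [hxe, ← hτe']
        exact Perm.sameCycle_apply_right.mpr key
      · have hxe' : x ≠ e' := by
          rintro rfl
          exact he' h2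
        rw [← hτx x hxe hxe']
        exact Perm.sameCycle_apply_right.mpr h1
    intro x hx
    have hst : e ∈ {x | τ.SameCycle e x ∧ σ.SameCycle e0 x} := ⟨Perm.SameCycle.refl _ _, he⟩
    exact (mem_of_sameCycle hcl hst (he.symm.trans hx)).1
  have h0 : τ.SameCycle e e0 := hsub e0 (Perm.SameCycle.refl _ _)
  rcases hy with hy | rfl
  · exact h0.symm.trans (hsub y hy)
  · exact h0.symm.trans key

/-- Compose a permutation with a permutation preserving the classes of `R` to obtain a single
cycle. -/
theorem exists_single_cycle (σ : Perm E) (R : E → E → Prop) (hR : Equivalence R) (e0 : E)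
    (hconn : ∀ S : Set E, e0 ∈ S → (∀ e ∈ S, σ e ∈ S) → (∀ e ∈ S, ∀ e', R e e' → e' ∈ S) →
      ∀ e, e ∈ S) :
    ∃ ρ : Perm E, (∀ e, R e (ρ e)) ∧ ∀ y, (σ * ρ).SameCycle e0 y := by
  classical
  obtain ⟨ρ, hρ, hmax⟩ := Finset.exists_max_image
    (Finset.univ.filter (fun ρ : Perm E => ∀ e, R e (ρ e)))
    (fun ρ => (Finset.univ.filter (fun y => (σ * ρ).SameCycle e0 y)).card)
    ⟨1, by simpa using fun e => hR.refl e⟩
  rw [Finset.mem_filter] at hρ
  refine ⟨ρ, hρ.2, ?_⟩
  by_contra hcon
  push Not at hcon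
  obtain ⟨y0, hy0⟩ := hcon
  -- the orbit is not closed under `R`
  obtain ⟨e, he, e', hee', he'⟩ : ∃ e, (σ * ρ).SameCycle e0 e ∧ ∃ e', R e e' ∧
      ¬ (σ * ρ).SameCycle e0 e' := by
    by_contra hno
    push Not at hno
    refine hy0 (hconn {y | (σ * ρ).SameCycle e0 y} (Perm.SameCycle.refl _ _) ?_ ?_ y0)
    · intro e he
      have h1 : R e (ρ⁻¹ e) := by
        have := hρ.2 (ρ⁻¹ e)
        rw [show ρ (ρ⁻¹ e) = e from Equiv.apply_symm_apply ρ e] at this
        exact hR.symm this
      have h2 := hno e he _ h1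
      have h3 : (σ * ρ) (ρ⁻¹ e) = σ e := by
        rw [Perm.mul_apply, show ρ (ρ⁻¹ e) = e from Equiv.apply_symm_apply ρ e]
      show (σ * ρ).SameCycle e0 (σ e)
      rw [← h3]
      exact Perm.sameCycle_apply_right.mpr h2
    · intro e he e' hee'
      exact hno e he e' hee'
  have hmem : ρ * swap e e' ∈ Finset.univ.filter (fun ρ : Perm E => ∀ e, R e (ρ e)) := by
    rw [Finset.mem_filter]
    refine ⟨Finset.mem_univ _, fun x => ?_⟩
    rw [Perm.mul_apply]
    by_cases h1 : x = e
    · rw [h1, swap_apply_left]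
      exact hR.trans hee' (hρ.2 e')
    · by_cases h2 : x = e'
      · rw [h2, swap_apply_right]
        exact hR.trans (hR.symm hee') (hρ.2 e)
      · rw [swap_apply_of_ne_of_ne h1 h2]
        exact hρ.2 x
  have hlt := hmax _ hmem
  rw [← mul_assoc] at hlt
  have hss : (Finset.univ.filter (fun y => (σ * ρ).SameCycle e0 y)) ⊂
      (Finset.univ.filter (fun y => (σ * ρ * swap e e').SameCycle e0 y)) := by
    rw [Finset.ssubset_iff_of_subset]
    · exact ⟨e', by simpa using merge (σ * ρ) he he' e' (Or.inr rfl), by simpa using he'⟩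
    · intro y hy
      rw [Finset.mem_filter] at hy ⊢
      exact ⟨Finset.mem_univ _, merge (σ * ρ) he he' y (Or.inl hy.2)⟩
  have := Finset.card_lt_card hss
  omega

end Merge

/-! ## Perfect necklaces -/

/-- The rotation. -/
def rot (q D : ℕ) : Perm (ZMod q × (ZMod D → Bool)) :=
  Equiv.prodCongr (Equiv.addRight (1 : ZMod q))
    (Equiv.arrowCongr (Equiv.subRight (1 : ZMod D)) (Equiv.refl Bool))

theorem rot_fst {q D : ℕ} (e : ZMod q × (ZMod D → Bool)) : (rot q D e).1 = e.1 + 1 := rfl

theorem rot_snd {q D : ℕ} (e : ZMod q × (ZMod D → Bool)) (t : ZMod D) :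
    (rot q D e).2 t = e.2 (t + 1) := rfl

theorem rot_pow {q D : ℕ} (n : ℕ) (φ : ZMod q) (W : ZMod D → Bool) :
    ((rot q D) ^ n) (φ, W) = (φ + n, fun t => W (t + n)) := by
  induction n with
  | zero => simp
  | succ n ih =>
    rw [pow_succ', Perm.mul_apply, ih]
    refine Prod.ext ?_ ?_
    · rw [rot_fst]; push_cast; ring
    · funext t
      rw [rot_snd]
      simp only
      congr 1
      push_cast; ring

/-- Two edges are related if they differ in the first letter only. -/
def Rel {q D : ℕ} (e e' : ZMod q × (ZMod D → Bool)) : Prop :=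
  e.1 = e'.1 ∧ ∀ t, t ≠ 0 → e.2 t = e'.2 t

theorem rel_equivalence {q D : ℕ} : Equivalence (Rel (q := q) (D := D)) :=
  ⟨fun _ => ⟨rfl, fun _ _ => rfl⟩, fun h => ⟨h.1.symm, fun t ht => (h.2 t ht).symm⟩,
    fun h h' => ⟨h.1.trans h'.1, fun t ht => (h.2 t ht).trans (h'.2 t ht)⟩⟩

theorem rot_conn {q D : ℕ} [NeZero q] [NeZero D] (S : Set (ZMod q × (ZMod D → Bool)))
    (h0 : ((0 : ZMod q), (fun _ => false : ZMod D → Bool)) ∈ S)
    (hσ : ∀ e ∈ S, rot q D e ∈ S) (hR : ∀ e ∈ S, ∀ e', Rel e e' → e' ∈ S) : ∀ e, e ∈ S := by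
  classical
  have hphase : ∀ φ : ZMod q, (φ, (fun _ => false : ZMod D → Bool)) ∈ S := by
    intro φ
    have h1 : (rot q D).SameCycle ((0 : ZMod q), (fun _ => false : ZMod D → Bool))
        (((rot q D) ^ φ.val) ((0 : ZMod q), (fun _ => false : ZMod D → Bool))) :=
      ⟨φ.val, by rw [zpow_natCast]⟩
    have h2 := mem_of_sameCycle hσ h0 h1
    rw [rot_pow] at h2
    simpa using h2
  have hupd : ∀ (φ : ZMod q) (W : ZMod D → Bool) (c : ZMod D) (b : Bool), (φ, W) ∈ S →
      (φ, Function.update W c b) ∈ S := by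
    intro φ W c b hW
    have h1 : (rot q D).SameCycle (φ, W) (((rot q D) ^ c.val) (φ, W)) :=
      ⟨c.val, by rw [zpow_natCast]⟩
    have h2 := mem_of_sameCycle hσ hW h1
    have h3 : (rot q D).SameCycle (φ, Function.update W c b)
        (((rot q D) ^ c.val) (φ, Function.update W c b)) := ⟨c.val, by rw [zpow_natCast]⟩
    refine mem_of_sameCycle hσ (hR _ h2 _ ?_) h3.symm
    rw [rot_pow, rot_pow]
    refine ⟨rfl, fun t ht => ?_⟩
    simp only
    rw [Function.update_of_ne]
    intro hc
    apply ht
    rw [ZMod.natCast_zmod_val] at hc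
    have : t + c = 0 + c := by rw [hc, zero_add]
    exact add_right_cancel this
  have hall : ∀ (s : Finset (ZMod D)) (φ : ZMod q) (W : ZMod D → Bool),
      (∀ t, t ∉ s → W t = false) → (φ, W) ∈ S := by
    intro s
    induction s using Finset.induction_on with
    | empty =>
      intro φ W hW
      have : W = fun _ => false := funext fun t => hW t (Finset.notMem_empty t)
      rw [this]; exact hphase φ
    | insert c s hc ih =>
      intro φ W hW
      have h1 : (φ, Function.update W c false) ∈ S := by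
        refine ih φ _ fun t ht => ?_
        by_cases htc : t = c
        · rw [htc, Function.update_self]
        · rw [Function.update_of_ne htc]
          exact hW t (by rw [Finset.mem_insert]; tauto)
      have h2 := hupd φ _ c (W c) h1
      rwa [Function.update_idem, Function.update_eq_self] at h2
  rintro ⟨φ, W⟩
  exact hall Finset.univ φ W fun t ht => absurd (Finset.mem_univ t) ht

/-- For all `q, D ≥ 1` there is a binary sequence with a period `L`, a positive multiple of `q`, in
which every word of length `D` starts at exactly one position in each residue class modulo `q`. -/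
theorem exists_necklace (q D : ℕ) (hq : 0 < q) (hD : 0 < D) :
    ∃ (L : ℕ) (p : ℕ → Bool), 0 < L ∧ q ∣ L ∧ (∀ i, p (i + L) = p i) ∧
      ∀ (φ : ℕ) (W : ℕ → Bool), φ < q → ∃ i, (i < L ∧ i % q = φ ∧ ∀ t < D, p (i + t) = W t) ∧
        ∀ i', (i' < L ∧ i' % q = φ ∧ ∀ t < D, p (i' + t) = W t) → i' = i := by
  classical
  have : NeZero q := ⟨by omega⟩
  have : NeZero D := ⟨by omega⟩
  obtain ⟨ρ, hρ, htrans⟩ := exists_single_cycle (rot q D) Rel rel_equivalence
    ((0 : ZMod q), (fun _ => false : ZMod D → Bool)) rot_conn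
  set π := rot q D * ρ with hπ
  set e0 : ZMod q × (ZMod D → Bool) := (0, fun _ => false) with he0
  have hcyc : π.IsCycleOn (Finset.univ : Finset (ZMod q × (ZMod D → Bool))) := by
    refine ⟨?_, ?_⟩
    · rw [Finset.coe_univ]
      exact Set.bijOn_univ.mpr π.bijective
    · intro x _ y _
      exact (htrans x).symm.trans (htrans y)
  set L := (Finset.univ : Finset (ZMod q × (ZMod D → Bool))).card with hL
  have hLpos : 0 < L := Finset.card_pos.mpr ⟨e0, Finset.mem_univ _⟩
  have hstep1 : ∀ i : ℕ, ((π ^ i) e0).1 = i := by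
    intro i
    induction i with
    | zero => simp [he0]
    | succ i ih =>
      rw [pow_succ', Perm.mul_apply, hπ, Perm.mul_apply, rot_fst, ← (hρ _).1, ← hπ, ih]
      push_cast; rfl
  have hstep2 : ∀ (i : ℕ) (t : ZMod D), t + 1 ≠ 0 →
      ((π ^ (i + 1)) e0).2 t = ((π ^ i) e0).2 (t + 1) := by
    intro i t ht
    rw [pow_succ', Perm.mul_apply]
    conv_lhs => rw [hπ, Perm.mul_apply, rot_snd, ← (hρ _).2 _ ht, ← hπ]
  have hread : ∀ (t : ℕ), t < D → ∀ i : ℕ,
      ((π ^ i) e0).2 (t : ZMod D) = ((π ^ (i + t)) e0).2 0 := by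
    intro t
    induction t with
    | zero => intro _ i; simp
    | succ t ih =>
      intro ht i
      have h1 : ((t : ZMod D) + 1) ≠ 0 := by
        intro h
        have h2 : ((t + 1 : ℕ) : ZMod D) = 0 := by push_cast; exact h
        rw [ZMod.natCast_eq_zero_iff] at h2
        exact absurd (Nat.le_of_dvd (by omega) h2) (by omega)
      have h2 := hstep2 i (t : ZMod D) h1
      rw [ih (by omega) (i + 1)] at h2
      have h4 : ((t + 1 : ℕ) : ZMod D) = (t : ZMod D) + 1 := by push_cast; rfl
      rw [h4, ← h2, show i + 1 + t = i + (t + 1) by ring]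
  have hper : ∀ i, ((π ^ (i + L)) e0) = (π ^ i) e0 := by
    intro i
    rw [pow_add, Perm.mul_apply, hcyc.pow_card_apply (Finset.mem_univ e0)]
  have hqL : q ∣ L := by
    have h1 := hstep1 L
    have h2 := hper 0
    rw [zero_add, pow_zero, Perm.one_apply] at h2
    rw [h2, he0] at h1
    exact (ZMod.natCast_eq_zero_iff _ _).mp h1.symm
  refine ⟨L, fun i => ((π ^ i) e0).2 0, hLpos, hqL, fun i => by simp only [hper], ?_⟩
  intro φ W hφ
  have hiff : ∀ i : ℕ, (i % q = φ ∧ ∀ t < D, ((π ^ (i + t)) e0).2 0 = W t) ↔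
      (π ^ i) e0 = ((φ : ZMod q), fun t : ZMod D => W t.val) := by
    intro i
    constructor
    · rintro ⟨h1, h2⟩
      refine Prod.ext ?_ ?_
      · rw [hstep1, ← h1, ZMod.natCast_mod]
      · funext t
        have := h2 t.val (ZMod.val_lt t)
        rw [← hread t.val (ZMod.val_lt t) i, ZMod.natCast_zmod_val] at this
        exact this
    · intro h
      constructor
      · have h1 := hstep1 i
        rw [h] at h1
        have h2 : ((i : ℕ) : ZMod q) = ((φ : ℕ) : ZMod q) := h1.symm
        rw [ZMod.natCast_eq_natCast_iff'] at h2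
        rw [h2, Nat.mod_eq_of_lt hφ]
      · intro t ht
        rw [← hread t ht i, h]
        simp only
        rw [ZMod.val_natCast, Nat.mod_eq_of_lt ht]
  obtain ⟨i, hi, he⟩ := hcyc.exists_pow_eq (Finset.mem_univ e0)
    (Finset.mem_univ ((φ : ZMod q), fun t : ZMod D => W t.val))
  refine ⟨i, ⟨hi, ((hiff i).mpr he).1, ((hiff i).mpr he).2⟩, ?_⟩
  rintro i' ⟨h1, h2, h3⟩
  have h4 := (hiff i').mp ⟨h2, h3⟩
  have h5 := (hcyc.pow_apply_eq_pow_apply (Finset.mem_univ e0)).mp (h4.trans he.symm)
  exact Nat.ModEq.eq_of_lt_of_lt h5 h1 hi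

/-! ## The construction -/

/-- The period `6` sequence `0, 0, 1, 1, 1, 0`. -/
def typ (i : ℕ) : Bool := decide (2 ≤ i % 6 ∧ i % 6 ≤ 4)

theorem typ_add (i k : ℕ) : typ (i + 6 * k) = typ i := by
  unfold typ; rw [Nat.add_mul_mod_self_left]

theorem typ_mod (i t : ℕ) : typ (i % 6 + t) = typ (i + t) := by
  unfold typ; rw [Nat.mod_add_mod]

/-- The first component of a letter. -/
def fst (x : Fin 4) : Bool := decide (2 ≤ x.val)

/-- The second component of a letter. -/
def snd (x : Fin 4) : Bool := decide (x.val % 2 = 1)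

/-- The letter with given components. -/
def enc (a b : Bool) : Fin 4 := if a then (if b then 3 else 2) else (if b then 1 else 0)

theorem enc_eq_iff (a b : Bool) (x : Fin 4) : enc a b = x ↔ a = fst x ∧ b = snd x := by
  revert a b x; decide

/-- The number of the first letter of a window starting at a position congruent to `r`. -/
def dl (r : ℕ) : ℕ := if r ≤ 1 then 0 else r - 1

/-- The position in a window, starting at a position congruent to `r` modulo `4`, of its letter
number `t`. -/
def pos (r t : ℕ) : ℕ := 4 * ((dl r + t) / 3) + (dl r + t) % 3 + 1 - r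

theorem dl_lt {r : ℕ} (hr : r < 4) : dl r < 3 := by unfold dl; split <;> omega

theorem pos_spec {r : ℕ} (hr : r < 4) (t : ℕ) :
    r + pos r t = 4 * ((dl r + t) / 3) + (dl r + t) % 3 + 1 := by
  unfold pos dl
  split <;> omega

/-- The letters. -/
def letter (p : ℕ → Bool) (m i : ℕ) : Fin 4 := enc (p (i + m)) (xor (p i) (typ (i + m)))

/-- The partial word. -/
def word (p : ℕ → Bool) (m q : ℕ) : Option (Fin 4) :=
  if q % 4 = 0 then none else some (letter p m (3 * (q / 4) + (q % 4 - 1)))

theorem word_none (p : ℕ → Bool) (m q : ℕ) : word p m q = none ↔ q % 4 = 0 := by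
  unfold word; split <;> simp_all

/-- The combinatorial core: every assignment of types to the four residue classes selects exactly
one window type. -/
theorem core (a b c d : Bool) : ∃ r φ : ℕ, (r < 4 ∧ φ < 6 ∧ φ % 3 = dl r ∧
    ∀ t < 3, typ (φ + t) = (if pos r t = 0 then a else if pos r t = 1 then b else
      if pos r t = 2 then c else d)) ∧
    ∀ r' < 4, ∀ φ' < 6, (φ' % 3 = dl r' ∧
    ∀ t < 3, typ (φ' + t) = (if pos r' t = 0 then a else if pos r' t = 1 then b else
      if pos r' t = 2 then c else d)) → r' = r ∧ φ' = φ := by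
  have h : ∀ a b c d : Bool, ∃ r < 4, ∃ φ < 6, (φ % 3 = dl r ∧
    ∀ t < 3, typ (φ + t) = (if pos r t = 0 then a else if pos r t = 1 then b else
      if pos r t = 2 then c else d)) ∧
    ∀ r' < 4, ∀ φ' < 6, (φ' % 3 = dl r' ∧
    ∀ t < 3, typ (φ' + t) = (if pos r' t = 0 then a else if pos r' t = 1 then b else
      if pos r' t = 2 then c else d)) → r' = r ∧ φ' = φ := by decide
  obtain ⟨r, hr, φ, hφ, h1, h2⟩ := h a b c d
  exact ⟨r, φ, ⟨hr, hφ, h1⟩, h2⟩

/-- The window at the position `4 j + r` covers `w` if and only if its letters are those of `w`. -/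
theorem cover_iff (p : ℕ → Bool) {k m : ℕ} (hm : m = 3 * (k - 1)) (hk : 1 ≤ k) (w : ℕ → Fin 4)
    {r : ℕ} (hr : r < 4) (j : ℕ) :
    (∀ x < 4 * k, word p m (4 * j + r + x) = none ∨ word p m (4 * j + r + x) = some (w x)) ↔
      ∀ t < m + 3, letter p m (3 * j + dl r + t) = w (pos r t) := by
  constructor
  · intro h t ht
    have hp := pos_spec hr t
    have hx : pos r t < 4 * k := by
      unfold dl at hp
      split at hp <;> omega
    have hmod : (4 * j + r + pos r t) % 4 ≠ 0 := by omega
    have h1 := h _ hx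
    unfold word at h1
    rw [if_neg hmod] at h1
    rcases h1 with h1 | h1
    · exact absurd h1 (by simp)
    · have h2 := Option.some.inj h1
      rw [← h2]
      congr 1
      omega
  · intro h x hx
    unfold word
    by_cases hmod : (4 * j + r + x) % 4 = 0
    · left; rw [if_pos hmod]
    · right
      rw [if_neg hmod]
      congr 1
      have hd := dl_lt hr
      -- the number of the letter
      have ht : ∃ t, t < m + 3 ∧ pos r t = x ∧
          3 * ((4 * j + r + x) / 4) + ((4 * j + r + x) % 4 - 1) = 3 * j + dl r + t := by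
        have hle : dl r ≤ 3 * ((r + x) / 4) + ((r + x) % 4 - 1) := by
          unfold dl
          split <;> omega
        obtain ⟨t, ht⟩ := Nat.exists_eq_add_of_le hle
        have hmod' : (r + x) % 4 ≠ 0 := by omega
        have hb : t < m + 3 := by
          unfold dl at ht
          split at ht <;> omega
        refine ⟨t, hb, ?_, by omega⟩
        have hp := pos_spec hr t
        rw [← ht] at hp
        omega
      obtain ⟨t, h1, h2, h3⟩ := ht
      rw [h3, h t h1, h2]

/-- The letters of a window agree with those of `w` if and only if the types of `w` are correct and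
a word of length `2 m + 3` occurs in `p`. -/
theorem letters_iff (p : ℕ → Bool) {k m : ℕ} (hm : m = 3 * (k - 1)) (w : ℕ → Fin 4)
    {r : ℕ} (hr : r < 4) (i : ℕ) :
    (∀ t < m + 3, letter p m (i + t) = w (pos r t)) ↔
      (∀ t < 3, typ (i % 6 + t) = xor (fst (w (pos r t))) (snd (w (pos r t + 4 * (k - 1))))) ∧
      ∀ t < 2 * m + 3, p (i + t) = (if t < m + 3 then
        xor (snd (w (pos r t))) (typ (i % 6 + t + m)) else fst (w (pos r (t - m)))) := by
  have hposm : ∀ t, pos r (t + m) = pos r t + 4 * (k - 1) := by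
    intro t
    unfold pos
    subst hm
    have h1 : (dl r + (t + 3 * (k - 1))) / 3 = (dl r + t) / 3 + (k - 1) := by omega
    have h2 : (dl r + (t + 3 * (k - 1))) % 3 = (dl r + t) % 3 := by omega
    rw [h1, h2]
    have := pos_spec hr t
    omega
  have h2m : ∀ x, typ (x + 2 * m) = typ x := by
    intro x
    rw [hm, show 2 * (3 * (k - 1)) = 6 * (k - 1) by ring, typ_add]
  unfold letter
  simp only [enc_eq_iff]
  constructor
  · intro h
    constructor
    · intro t ht
      obtain ⟨h1, -⟩ := h t (by omega)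
      obtain ⟨-, h2⟩ := h (t + m) (by omega)
      rw [hposm] at h2
      rw [← h1, ← h2, typ_mod, show i + (t + m) + m = (i + t) + 2 * m by ring, h2m,
        show i + (t + m) = i + t + m by ring]
      cases p (i + t + m) <;> cases typ (i + t) <;> rfl
    · intro t ht
      split
      · rename_i h3
        obtain ⟨-, h2⟩ := h t h3
        rw [← h2, show i % 6 + t + m = i % 6 + (t + m) by ring, typ_mod,
          show i + (t + m) = i + t + m by ring]
        cases p (i + t) <;> cases typ (i + t + m) <;> rfl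
      · rename_i h3
        obtain ⟨h1, -⟩ := h (t - m) (by omega)
        rw [← h1]
        congr 1
        omega
  · rintro ⟨hT, hp⟩ t ht
    constructor
    · by_cases h3 : t + m < m + 3
      · have h4 := hp (t + m) (by omega)
        rw [if_pos h3, hposm] at h4
        have h5 := hT t (by omega)
        rw [show i + t + m = i + (t + m) by ring, h4,
          show i % 6 + (t + m) + m = (i % 6 + t) + 2 * m by ring, h2m, h5]
        cases fst (w (pos r t)) <;> cases snd (w (pos r t + 4 * (k - 1))) <;> rfl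
      · have h4 := hp (t + m) (by omega)
        rw [if_neg h3, show t + m - m = t by omega] at h4
        rw [show i + t + m = i + (t + m) by ring, h4]
    · have h4 := hp t (by omega)
      rw [if_pos ht] at h4
      rw [h4, show i % 6 + t + m = i % 6 + (t + m) by ring, typ_mod,
        show i + (t + m) = i + t + m by ring]
      cases snd (w (pos r t)) <;> cases typ (i + t + m) <;> rfl

/-- For every `k ≥ 2` there is a cyclic partial word over a four letter alphabet, with wildcards
exactly at the positions divisible by `4`, in which every word of length `4 k` is covered by exactly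
one window. -/
theorem main (k : ℕ) (hk : 2 ≤ k) : ∃ (N : ℕ) (U : ℕ → Option (Fin 4)), 0 < N ∧ 4 ∣ N ∧
    (∀ i, U (i + N) = U i) ∧ (∀ i, U i = none ↔ i % 4 = 0) ∧
    ∀ w : ℕ → Fin 4, ∃ i, (i < N ∧ ∀ x < 4 * k, U (i + x) = none ∨ U (i + x) = some (w x)) ∧
      ∀ i', (i' < N ∧ ∀ x < 4 * k, U (i' + x) = none ∨ U (i' + x) = some (w x)) → i' = i := by
  obtain ⟨m, hm⟩ : ∃ m, m = 3 * (k - 1) := ⟨_, rfl⟩
  obtain ⟨L, p, hL, hqL, hper, hneck⟩ := exists_necklace 6 (2 * m + 3) (by norm_num) (by omega)
  obtain ⟨Q, rfl⟩ : ∃ Q, L = 6 * Q := hqL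
  have hlper : ∀ i, letter p m (i + 6 * Q) = letter p m i := by
    intro i
    unfold letter
    rw [hper, show i + 6 * Q + m = (i + m) + 6 * Q by ring, hper, typ_add]
  refine ⟨8 * Q, word p m, by omega, by omega, ?_, word_none p m, ?_⟩
  · intro i
    unfold word
    have h1 : (i + 8 * Q) % 4 = i % 4 := by omega
    have h2 : 3 * ((i + 8 * Q) / 4) + (i % 4 - 1) = (3 * (i / 4) + (i % 4 - 1)) + 6 * Q := by omega
    rw [h1, h2, hlper]
  · intro w
    obtain ⟨r, φ, ⟨hr, hφ, hφr, hT⟩, huniq⟩ := core
      (xor (fst (w 0)) (snd (w (0 + 4 * (k - 1))))) (xor (fst (w 1)) (snd (w (1 + 4 * (k - 1)))))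
      (xor (fst (w 2)) (snd (w (2 + 4 * (k - 1))))) (xor (fst (w 3)) (snd (w (3 + 4 * (k - 1)))))
    -- the conditional expression in `core` is the type of the class of `pos r t`
    have hcond : ∀ r < 4, ∀ t < 3, (if pos r t = 0 then
        (xor (fst (w 0)) (snd (w (0 + 4 * (k - 1))))) else if pos r t = 1 then
        (xor (fst (w 1)) (snd (w (1 + 4 * (k - 1))))) else if pos r t = 2 then
        (xor (fst (w 2)) (snd (w (2 + 4 * (k - 1))))) else
        (xor (fst (w 3)) (snd (w (3 + 4 * (k - 1)))))) =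
        xor (fst (w (pos r t))) (snd (w (pos r t + 4 * (k - 1)))) := by
      intro r hr t ht
      have hp : pos r t ≤ 3 := by
        have h : ∀ r < 4, ∀ t < 3, pos r t ≤ 3 := by decide
        exact h r hr t ht
      rcases (show pos r t = 0 ∨ pos r t = 1 ∨ pos r t = 2 ∨ pos r t = 3 by omega) with
        h | h | h | h <;> rw [h] <;> simp
    obtain ⟨i, ⟨hi, hi6, hip⟩, hiu⟩ := hneck φ (fun t => if t < m + 3 then
        xor (snd (w (pos r t))) (typ (φ + t + m)) else fst (w (pos r (t - m)))) hφ
    have hi3 : i % 3 = dl r := by omega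
    have hdl := dl_lt hr
    have hieq : i = 3 * (i / 3) + dl r := by omega
    refine ⟨4 * (i / 3) + r, ⟨by omega, ?_⟩, ?_⟩
    · rw [cover_iff p hm (by omega) w hr, ← hieq, letters_iff p hm w hr]
      constructor
      · intro t ht
        rw [hi6, hT t ht, hcond r hr t ht]
      · intro t ht
        rw [hip t ht, hi6]
    · rintro i' ⟨hi', hcov⟩
      obtain ⟨j', r', hr', rfl⟩ : ∃ j' r', r' < 4 ∧ i' = 4 * j' + r' :=
        ⟨i' / 4, i' % 4, by omega, by omega⟩
      have hdl' := dl_lt hr'
      rw [cover_iff p hm (by omega) w hr', letters_iff p hm w hr'] at hcov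
      obtain ⟨c1, c2⟩ := hcov
      obtain ⟨rfl, hφ'⟩ := huniq r' hr' ((3 * j' + dl r') % 6) (by omega) ⟨by omega, by
        intro t ht
        rw [c1 t ht, hcond r' hr' t ht]⟩
      have := hiu (3 * j' + dl r') ⟨by omega, hφ', by
        intro t ht
        rw [c2 t ht, hφ']⟩
      omega

end Pool.Agent.H156.Upcycle
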